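import Pool.Agent.Helper10.Ram.QfBounds
import Pool.Agent.Helper50.Ram.RamU2c
import Pool.Agent.Helper68.RamDiff
import Pool.Agent.Helper64.RamU1
import Pool.Agent.Helper9.Ram.Energy
import Pool.Agent.Helper80.RamM
import Pool.Agent.Helper44.RamW
import Pool.Agent.Helper47.Ram.Strip3
import Pool.Agent.Helper34.Ram.AUp
import Pool.Agent.Helper99.Ram.Lower

set_option autoImplicit false

/-!
# All modules collected under one namespace
-/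

namespace Pool.Agent.Helper10.Ram

open Complex MeasureTheory Topology

theorem den_pos (g : SL2C) {p : Pt} (hp : p ∈ UH) : 0 < den g p :=
  Pool.Agent.Helper50.Ram.den_pos g hp

theorem act_mem (g : SL2C) {p : Pt} (hp : p ∈ UH) : act g p ∈ UH :=
  Pool.Agent.Helper50.Ram.act_mem g hp

theorem act_mul (g h : SL2C) {p : Pt} (hp : p ∈ UH) : act (g * h) p = act g (act h p) :=
  Pool.Agent.Helper50.Ram.act_mul g h hp

theorem act_one (p : Pt) : act 1 p = p :=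
  Pool.Agent.Helper50.Ram.act_one p

theorem den_mul (g h : SL2C) {p : Pt} (hp : p ∈ UH) :
    den (g * h) p = den g (act h p) * den h p :=
  Pool.Agent.Helper50.Ram.den_mul g h hp

theorem act_trans (x : ℂ) (p : Pt) : act (trans x) p = (p.1 + x, p.2) :=
  Pool.Agent.Helper50.Ram.act_trans x p

theorem contDiffOn_act (g : SL2C) : ContDiffOn ℝ 2 (act g) UH :=
  Pool.Agent.Helper68.Ram.contDiffOn_act g

theorem measurable_act (g : SL2C) : Measurable (act g) :=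
  Pool.Agent.Helper68.Ram.measurable_act g

theorem gdot_comp_act (g : SL2C) {p : Pt} (hp : p ∈ UH) {f h : Pt → ℂ}
    (hf : DifferentiableAt ℝ f (act g p)) (hh : DifferentiableAt ℝ h (act g p)) :
    gdot (fun q => f (act g q)) (fun q => h (act g q)) p = gdot f h (act g p) :=
  Pool.Agent.Helper68.Ram.gdot_comp_act g hp hf hh

theorem gsq_comp_act (g : SL2C) {p : Pt} (hp : p ∈ UH) {f : Pt → ℂ}
    (hf : DifferentiableAt ℝ f (act g p)) :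
    gsq (fun q => f (act g q)) p = gsq f (act g p) :=
  Pool.Agent.Helper68.Ram.gsq_comp_act g hp hf

theorem measurePreserving_act (g : SL2C) : MeasurePreserving (act g) hyp hyp :=
  Pool.Agent.Helper68.Ram.measurePreserving_act g

theorem countable_Gam {R : Subring ℂ} (hR : NiceRing R) : Countable (Gam R) :=
  Pool.Agent.Helper64.Ram.countable_Gam hR

theorem local_finite {R : Subring ℂ} (hR : NiceRing R) {p : Pt} (hp : p ∈ UH) (C a : ℝ)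
    (ha : 0 < a) :
    ∃ U ∈ 𝓝 p, U ⊆ UH ∧
      {γ : Gam R | ∃ q ∈ U, ‖(act γ q).1‖ ≤ C ∧ a ≤ (act γ q).2}.Finite :=
  Pool.Agent.Helper64.Ram.local_finite hR hp C a ha

theorem exists_kap {R : Subring ℂ} (hR : NiceRing R) {C a : ℝ} (ha : 0 < a)
    (hcov : Covers R C a) : ∃ (κ : Pt → ℝ) (C' a' : ℝ), Kap R κ C' a' :=
  Pool.Agent.Helper64.Ram.exists_kap hR ha hcov

theorem unfold {R : Subring ℂ} (hR : NiceRing R) {κ : Pt → ℝ} {C a : ℝ} (hK : Kap R κ C a)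
    (η F : Pt → ENNReal) (hη : Measurable η) (hF : Measurable F)
    (hinv : ∀ γ ∈ Gam R, ∀ p ∈ UH, F (act γ p) = F p) :
    ∫⁻ p, η p * F p ∂hyp
      = ∫⁻ p, ENNReal.ofReal (κ p) * (∑' γ : Gam R, η (act γ p)) * F p ∂hyp :=
  Pool.Agent.Helper50.Ram.unfold_aux (countable_Gam hR) measurable_act measurePreserving_act hK η F hη hF hinv

theorem strip_unfold {R : Subring ℂ} (hR : NiceRing R) {τ : ℂ} (hτ : IsLat R τ)
    {κ : Pt → ℝ} {C a : ℝ} (hK : Kap R κ C a)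
    (ψ : ℝ → ENNReal) (hψ : Measurable ψ) (F : Pt → ENNReal) (hF : Measurable F)
    (hinv : ∀ γ ∈ Gam R, ∀ p ∈ UH, F (act γ p) = F p) :
    ∫⁻ r in Set.Ioi (0 : ℝ), ψ r * cellInt τ 1 F r * ENNReal.ofReal ((r ^ 3)⁻¹)
      = ENNReal.ofReal (τ.im)⁻¹ *
        ∫⁻ p, ENNReal.ofReal (κ p) * (∑' v : Prim R, ψ (1 / uval v p)) * F p ∂hyp :=
  Pool.Agent.Helper50.Ram.strip_unfold_aux hR measurePreserving_act hτ hK ψ hψ F hF hinv

theorem green {u : Pt → ℂ} (hu : ContDiffOn ℝ 2 u UH) (lam : ℂ)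
    (heig : ∀ p ∈ UH, lap u p = -lam * u p) : WeakEig lam u :=
  Pool.Agent.Helper9.Ram.green hu lam heig

theorem weakEig_comp (g : SL2C) {u : Pt → ℂ} (hu : ContDiffOn ℝ 1 u UH) {lam : ℂ}
    (h : WeakEig lam u) : WeakEig lam (fun p => u (act g p)) :=
  Pool.Agent.Helper9.Ram.weakEig_comp g hu h

theorem energy {R : Subring ℂ} (hR : NiceRing R) {κ : Pt → ℝ} {C a : ℝ} (hK : Kap R κ C a)
    {ι : Type} [Fintype ι] {u : ι → Pt → ℂ} (hS : Sys R ι u) (lam : ℂ)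
    (heig : ∀ i, WeakEig lam (u i))
    (hfin : ∫⁻ p, ENNReal.ofReal (κ p) * ENNReal.ofReal (∑ i, ‖u i p‖ ^ 2) ∂hyp ≠ ⊤) :
    (∫⁻ p, ENNReal.ofReal (κ p) * ENNReal.ofReal (∑ i, gsq (u i) p) ∂hyp
      ≤ ENNReal.ofReal lam.re *
        ∫⁻ p, ENNReal.ofReal (κ p) * ENNReal.ofReal (∑ i, ‖u i p‖ ^ 2) ∂hyp) ∧
    (lam.im = 0 ∨
      ∫⁻ p, ENNReal.ofReal (κ p) * ENNReal.ofReal (∑ i, ‖u i p‖ ^ 2) ∂hyp = 0) :=
  Pool.Agent.Helper9.Ram.energy hR hK hS lam heig hfin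

theorem cellInt_mul {R : Subring ℂ} {τ : ℂ} (hτ : IsLat R τ) {ν : ℂ} (hν : ν ∈ R) (hν0 : ν ≠ 0)
    (F : Pt → ENNReal) (hF : Measurable F)
    (hper : ∀ x ∈ R, ∀ z : ℂ, ∀ r : ℝ, 0 < r → F (z + x, r) = F (z, r)) {r : ℝ} (hr : 0 < r) :
    cellInt τ ν F r = cellInt τ 1 F r :=
  Pool.Agent.Helper80.RamM.cellInt_mul hτ hν hν0 F hF hper hr

theorem wirtinger_gauss {ν : ℂ} (hν0 : ν ≠ 0) {u : Pt → ℂ} (hu : ContDiffOn ℝ 1 u UH)
    (hper : ∀ x ∈ intRing I, ∀ p ∈ UH, u (p.1 + ν * x, p.2) = u p) {r : ℝ} (hr : 0 < r)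
    (hmean : ∫ s in (0 : ℝ)..1, ∫ t in (0 : ℝ)..1, u (ν * (s + t * I), r) = 0) :
    ENNReal.ofReal (4 * Real.pi ^ 2 / ‖ν‖ ^ 2) *
        cellInt I ν (fun p => ENNReal.ofReal (‖u p‖ ^ 2)) r
      ≤ cellInt I ν (fun p => ENNReal.ofReal (‖pd e1 u p‖ ^ 2 + ‖pd e2 u p‖ ^ 2)) r :=
  Pool.Agent.Helper44.Ram.wirtinger_gauss hν0 hu hper hr hmean

theorem wirtinger_eisenstein {ν : ℂ} (hν0 : ν ≠ 0) {u : Pt → ℂ} (hu : ContDiffOn ℝ 1 u UH)
    (hper : ∀ x ∈ intRing omega, ∀ p ∈ UH, u (p.1 + ν * x, p.2) = u p) {r : ℝ} (hr : 0 < r)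
    (hmean : ∫ s in (0 : ℝ)..1, ∫ t in (0 : ℝ)..1, u (ν * (s + t * omega), r) = 0) :
    ENNReal.ofReal (4 / 3 * (4 * Real.pi ^ 2) / ‖ν‖ ^ 2) *
        cellInt omega ν (fun p => ENNReal.ofReal (‖u p‖ ^ 2)) r
      ≤ cellInt omega ν (fun p => ENNReal.ofReal (‖pd e1 u p‖ ^ 2 + ‖pd e2 u p‖ ^ 2)) r :=
  Pool.Agent.Helper44.Ram.wirtinger_eisenstein hν0 hu hper hr hmean

theorem strip_ineq {τ ν : ℂ} {u : Pt → ℂ} (hu : ContDiffOn ℝ 1 u UH) {B : ℝ}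
    (hB : ∀ p ∈ UH, ‖u p‖ ≤ B) {c m a b r2 b2 μ : ℝ} (hm : 0 < m) (hmc : m < c) (hb : 0 ≤ b)
    (ha : 0 ≤ a) (hac : a * c ≤ 1) (hr2 : 1 / (c - m) ≤ r2)
    (hW : ∀ r : ℝ, 0 < r → ENNReal.ofReal μ * cellInt τ ν (fun p => ENNReal.ofReal (‖u p‖ ^ 2)) r
      ≤ cellInt τ ν (fun p => ENNReal.ofReal (‖pd e1 u p‖ ^ 2 + ‖pd e2 u p‖ ^ 2)) r)
    (hμ : 0 ≤ μ) {Q : ℝ → ℝ} (hQm : Measurable Q) (hQ0 : ∀ r : ℝ, 0 < r → 0 ≤ Q r)
    (hQ : ∀ r : ℝ, 0 < r → Q r ≤ qf c m a b r2 b2 μ r) :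
    ∫⁻ r in Set.Ioi (0 : ℝ), ENNReal.ofReal (Q r) *
        cellInt τ ν (fun p => ENNReal.ofReal (‖u p‖ ^ 2)) r * ENNReal.ofReal ((r ^ 3)⁻¹)
      ≤ ∫⁻ r in Set.Ioi (0 : ℝ), ENNReal.ofReal (psi c m r) *
        cellInt τ ν (fun p => ENNReal.ofReal (gsq u p)) r * ENNReal.ofReal ((r ^ 3)⁻¹) :=
  Pool.Agent.Helper47.Ram.strip_ineq hu hB hm hmc hb ha hac hr2 hW hμ hQm hQ0 hQ

theorem isLat_gauss : IsLat (intRing I) I :=
  Pool.Agent.Helper99.Ram.isLat_gauss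

theorem isLat_eisenstein : IsLat (intRing omega) omega :=
  Pool.Agent.Helper99.Ram.isLat_eisenstein

theorem niceRing_gauss : NiceRing (intRing I) :=
  Pool.Agent.Helper99.Ram.niceRing_gauss

theorem niceRing_eisenstein : NiceRing (intRing omega) :=
  Pool.Agent.Helper99.Ram.niceRing_eisenstein

theorem covers_gauss : Covers (intRing I) 1 (7 / 10) :=
  Pool.Agent.Helper99.Ram.covers_gauss

theorem covers_eisenstein : Covers (intRing omega) 1 (8 / 10) :=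
  Pool.Agent.Helper99.Ram.covers_eisenstein

theorem upper_gauss {p : Pt} (hp : p ∈ UH) :
    ∑' v : Prim (intRing I), ENNReal.ofReal (psi (8 / 5) (6 / 5) (1 / uval v p))
      ≤ ENNReal.ofReal (4 * (167 / 125)) :=
  Pool.Agent.Helper34.Ram.upper_gauss hp

theorem lower_gauss {p : Pt} (hp : p ∈ UH) :
    ENNReal.ofReal (4 * (167 / 125)) ≤
      ∑' v : Prim (intRing I),
        ENNReal.ofReal (Qf (8 / 5) (178 / 100) (115 / 100) (167 / 125) (1 / uval v p)) :=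
  Pool.Agent.Helper99.Ram.lower_gauss hp

theorem upper_eisenstein {p : Pt} (hp : p ∈ UH) :
    ∑' v : Prim (intRing omega), ENNReal.ofReal (psi (141 / 100) (41 / 50) (1 / uval v p))
      ≤ ENNReal.ofReal (6 * (41 / 50)) :=
  Pool.Agent.Helper34.Ram.upper_eisenstein hp

theorem lower_eisenstein {p : Pt} (hp : p ∈ UH) :
    ENNReal.ofReal (6 * (41 / 50)) ≤
      ∑' v : Prim (intRing omega),
        ENNReal.ofReal (Qf (141 / 100) (162 / 100) (1104 / 1000) (41 / 50) (1 / uval v p)) :=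
  Pool.Agent.Helper99.Ram.lower_eisenstein hp

end Pool.Agent.Helper10.Ram
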