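import Pool.Agent.Helper10.Ram.Lib

set_option autoImplicit false

/-!
# Second version of the weight: two lines in `1 / r`
-/

namespace Pool.Agent.Helper10.Ram

/-- the weight `ψ(r) = min m (max 0 (c - 1/r) (p - s/r))` -/
noncomputable def psi2 (c p s m : ℝ) (r : ℝ) : ℝ := min m (max 0 (max (c - 1 / r) (p - s / r)))

end Pool.Agent.Helper10.Ram
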