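import Pool.Agent.Helper10.Ram.Lib2
import Pool.Agent.Helper34.Ram.AUp2
import Pool.Agent.Helper99.Ram.Lower2

set_option autoImplicit false

/-!
# The height inequalities for the two-line weights, collected under one namespace
-/

namespace Pool.Agent.Helper10.Ram

open Complex MeasureTheory Topology

theorem upper_gauss2 {p : Pt} (hp : p ∈ UH) :
    ∑' v : Prim (intRing I),
        ENNReal.ofReal (psi2 (159 / 100) (217 / 100) (3 / 2) (135 / 100) (1 / uval v p))
      ≤ ENNReal.ofReal (4 * (135 / 100)) :=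
  Pool.Agent.Helper34.Ram.upper_gauss2 hp

theorem upper_eisenstein2 {p : Pt} (hp : p ∈ UH) :
    ∑' v : Prim (intRing omega),
        ENNReal.ofReal (psi2 (143 / 100) (1796 / 1000) (14 / 10) (86 / 100) (1 / uval v p))
      ≤ ENNReal.ofReal (6 * (86 / 100)) :=
  Pool.Agent.Helper34.Ram.upper_eisenstein2 hp

theorem lower_gauss2 {p : Pt} (hp : p ∈ UH) :
    ENNReal.ofReal (4 * (135 / 100)) ≤
      ∑' v : Prim (intRing I),
        ENNReal.ofReal (Qf (159 / 100) (161 / 100) (106 / 100) (135 / 100) (1 / uval v p)) :=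
  Pool.Agent.Helper99.Ram.lower_gauss2 hp

theorem lower_eisenstein2 {p : Pt} (hp : p ∈ UH) :
    ENNReal.ofReal (6 * (86 / 100)) ≤
      ∑' v : Prim (intRing omega),
        ENNReal.ofReal (Qf (143 / 100) (1388 / 1000) (104 / 100) (86 / 100) (1 / uval v p)) :=
  Pool.Agent.Helper99.Ram.lower_eisenstein2 hp

end Pool.Agent.Helper10.Ram
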