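import Pool.Agent.Helper10.Ram.Piece2

set_option autoImplicit false

/-!
# Radial certificates for the two-line weights (generated)
-/

namespace Pool.Agent.Helper10.Ram

open MeasureTheory Set Filter Topology Pool.Agent.Helper80.Ram

theorem g2_l1 {r : ℝ} (h1 : (100 / 159) ≤ r) (h2 : r ≤ (25 / 29)) :
    psi2 (159 / 100) (217 / 100) (3 / 2) (27 / 20) r = (159 / 100) - 1 / r :=
  psi2_line1 (by linarith) (by linarith) (by linarith) (by linarith)

theorem g2_l2 {r : ℝ} (h1 : (25 / 29) ≤ r) (h2 : r ≤ (75 / 41)) :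
    psi2 (159 / 100) (217 / 100) (3 / 2) (27 / 20) r = (217 / 100) - (3 / 2) / r :=
  psi2_line2 (by linarith) (by linarith) (by linarith) (by linarith)

theorem g2_l3 {r : ℝ} (h1 : (75 / 41) ≤ r) : psi2 (159 / 100) (217 / 100) (3 / 2) (27 / 20) r = (27 / 20) :=
  psi2_cap (by linarith) (by linarith)

theorem g2_q1 {r : ℝ} (h1 : (100 / 159) ≤ r) (h2 : r < (53 / 50)) :
    Qf (159 / 100) (161 / 100) (53 / 50) (27 / 20) r = (161 / 100) * (159 / 100) + (-(161 / 100)) / r :=
  Qf_low (by norm_num) (by linarith) (by linarith) h2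

theorem g2_q2 {r : ℝ} (h1 : (53 / 50) ≤ r) : Qf (159 / 100) (161 / 100) (53 / 50) (27 / 20) r = (27 / 20) := Qf_high h1

theorem g2_tail : Tail (psi2 (159 / 100) (217 / 100) (3 / 2) (27 / 20))
    (Qf (159 / 100) (161 / 100) (53 / 50) (27 / 20)) (931 / 1250) (100 / 159) (-1 / 2000) := by
  have hμ : (0 : ℝ) ≤ (931 / 1250) := by norm_num
  have hψ0 : ∀ r : ℝ, 0 < r → 0 ≤ psi2 (159 / 100) (217 / 100) (3 / 2) (27 / 20) r :=
    fun r _ => psi2_nonneg (by norm_num) r
  have hQ0 : ∀ r : ℝ, 0 < r → 0 ≤ Qf (159 / 100) (161 / 100) (53 / 50) (27 / 20) r :=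
    fun r _ => Qf_nonneg' (by norm_num) r
  have h10 : Tail (psi2 (159 / 100) (217 / 100) (3 / 2) (27 / 20)) (Qf (159 / 100) (161 / 100) (53 / 50) (27 / 20))
      (931 / 1250) 2 (-114167 / 100000) :=
    last2 (m := (27 / 20)) (M := (27 / 20)) hμ hψ0 hQ0 (58413 / 100000) (-8629 / 10000) (by norm_num) (by norm_num)
      (fun r hr => g2_l3 (le_trans (by norm_num) hr))
      (fun r hr => le_of_eq (g2_q2 (le_trans (by norm_num) hr.le)))
      (by rintro _ _ _ rfl rfl rfl; norm_num)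
  have h9 : Tail (psi2 (159 / 100) (217 / 100) (3 / 2) (27 / 20)) (Qf (159 / 100) (161 / 100) (53 / 50) (27 / 20))
      (931 / 1250) (75 / 41) (-100069 / 100000) :=
    cons2 hμ hψ0 hQ0 (27 / 20) 0 (27 / 20) 0 (50981 / 100000) (-41287 / 50000) (by norm_num) (by norm_num)
      (by norm_num) (by norm_num)
      (fun r hr => by rw [g2_l3 (le_trans (by norm_num) hr.1)]; simp)
      (fun r hr => by rw [g2_q2 (le_trans (by norm_num) hr.1.le)]; simp)
      (by rintro _ _ _ _ rfl rfl rfl rfl; norm_num) h10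
  have h8 : Tail (psi2 (159 / 100) (217 / 100) (3 / 2) (27 / 20)) (Qf (159 / 100) (161 / 100) (53 / 50) (27 / 20))
      (931 / 1250) (1807 / 1000) (-19787 / 20000) :=
    cons2 hμ hψ0 hQ0 (217 / 100) (3 / 2) (27 / 20) 0 (-6312997 / 91300000) (-23247 / 45650) (by norm_num) (by norm_num)
      (by norm_num) (by norm_num)
      (fun r hr => g2_l2 (le_trans (by norm_num) hr.1) (le_trans hr.2 (by norm_num)))
      (fun r hr => by rw [g2_q2 (le_trans (by norm_num) hr.1.le)]; simp)
      (by rintro _ _ _ _ rfl rfl rfl rfl; norm_num) h9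
  have h7 : Tail (psi2 (159 / 100) (217 / 100) (3 / 2) (27 / 20)) (Qf (159 / 100) (161 / 100) (53 / 50) (27 / 20))
      (931 / 1250) (1631 / 1000) (-44113 / 50000) :=
    cons2 hμ hψ0 hQ0 (217 / 100) (3 / 2) (27 / 20) 0 (1938603 / 17600000) (-10709 / 17600) (by norm_num) (by norm_num)
      (by norm_num) (by norm_num)
      (fun r hr => g2_l2 (le_trans (by norm_num) hr.1) (le_trans hr.2 (by norm_num)))
      (fun r hr => by rw [g2_q2 (le_trans (by norm_num) hr.1.le)]; simp)
      (by rintro _ _ _ _ rfl rfl rfl rfl; norm_num) h8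
  have h6 : Tail (psi2 (159 / 100) (217 / 100) (3 / 2) (27 / 20)) (Qf (159 / 100) (161 / 100) (53 / 50) (27 / 20))
      (931 / 1250) (1479 / 1000) (-4861 / 6250) :=
    cons2 hμ hψ0 hQ0 (217 / 100) (3 / 2) (27 / 20) 0 (95621 / 400000) (-11 / 16) (by norm_num) (by norm_num)
      (by norm_num) (by norm_num)
      (fun r hr => g2_l2 (le_trans (by norm_num) hr.1) (le_trans hr.2 (by norm_num)))
      (fun r hr => by rw [g2_q2 (le_trans (by norm_num) hr.1.le)]; simp)
      (by rintro _ _ _ _ rfl rfl rfl rfl; norm_num) h7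
  have h5 : Tail (psi2 (159 / 100) (217 / 100) (3 / 2) (27 / 20)) (Qf (159 / 100) (161 / 100) (53 / 50) (27 / 20))
      (931 / 1250) (681 / 500) (-17241 / 25000) :=
    cons2 hμ hψ0 hQ0 (217 / 100) (3 / 2) (27 / 20) 0 (327763 / 975000) (-2203 / 2925) (by norm_num) (by norm_num)
      (by norm_num) (by norm_num)
      (fun r hr => g2_l2 (le_trans (by norm_num) hr.1) (le_trans hr.2 (by norm_num)))
      (fun r hr => by rw [g2_q2 (le_trans (by norm_num) hr.1.le)]; simp)
      (by rintro _ _ _ _ rfl rfl rfl rfl; norm_num) h6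
  have h4 : Tail (psi2 (159 / 100) (217 / 100) (3 / 2) (27 / 20)) (Qf (159 / 100) (161 / 100) (53 / 50) (27 / 20))
      (931 / 1250) (319 / 250) (-61981 / 100000) :=
    cons2 hμ hψ0 hQ0 (217 / 100) (3 / 2) (27 / 20) 0 (1789971 / 4300000) (-6983 / 8600) (by norm_num) (by norm_num)
      (by norm_num) (by norm_num)
      (fun r hr => g2_l2 (le_trans (by norm_num) hr.1) (le_trans hr.2 (by norm_num)))
      (fun r hr => by rw [g2_q2 (le_trans (by norm_num) hr.1.le)]; simp)
      (by rintro _ _ _ _ rfl rfl rfl rfl; norm_num) h5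
  have h3 : Tail (psi2 (159 / 100) (217 / 100) (3 / 2) (27 / 20)) (Qf (159 / 100) (161 / 100) (53 / 50) (27 / 20))
      (931 / 1250) (1211 / 1000) (-28167 / 50000) :=
    cons2 hμ hψ0 hQ0 (217 / 100) (3 / 2) (27 / 20) 0 (3176807 / 6500000) (-5647 / 6500) (by norm_num) (by norm_num)
      (by norm_num) (by norm_num)
      (fun r hr => g2_l2 (le_trans (by norm_num) hr.1) (le_trans hr.2 (by norm_num)))
      (fun r hr => by rw [g2_q2 (le_trans (by norm_num) hr.1.le)]; simp)
      (by rintro _ _ _ _ rfl rfl rfl rfl; norm_num) h4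
  have h2 : Tail (psi2 (159 / 100) (217 / 100) (3 / 2) (27 / 20)) (Qf (159 / 100) (161 / 100) (53 / 50) (27 / 20))
      (931 / 1250) (53 / 50) (-39811 / 100000) :=
    cons2 hμ hψ0 hQ0 (217 / 100) (3 / 2) (27 / 20) 0 (11502919 / 15100000) (-16523 / 15100) (by norm_num) (by norm_num)
      (by norm_num) (by norm_num)
      (fun r hr => g2_l2 (le_trans (by norm_num) hr.1) (le_trans hr.2 (by norm_num)))
      (fun r hr => by rw [g2_q2 (le_trans (by norm_num) hr.1.le)]; simp)
      (by rintro _ _ _ _ rfl rfl rfl rfl; norm_num) h3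
  have h1 : Tail (psi2 (159 / 100) (217 / 100) (3 / 2) (27 / 20)) (Qf (159 / 100) (161 / 100) (53 / 50) (27 / 20))
      (931 / 1250) (25 / 29) (-12783 / 50000) :=
    cons2 hμ hψ0 hQ0 (217 / 100) (3 / 2) ((161 / 100) * (159 / 100)) (-(161 / 100)) (186943 / 512500) (-11803 / 16400) (by norm_num) (by norm_num)
      (by norm_num) (by norm_num)
      (fun r hr => g2_l2 (le_trans (by norm_num) hr.1) (le_trans hr.2 (by norm_num)))
      (fun r hr => le_of_eq (g2_q1 (le_trans (by norm_num) hr.1.le)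
        (lt_of_lt_of_le hr.2 (by norm_num))))
      (by rintro _ _ _ _ rfl rfl rfl rfl; norm_num) h2
  have h0 : Tail (psi2 (159 / 100) (217 / 100) (3 / 2) (27 / 20)) (Qf (159 / 100) (161 / 100) (53 / 50) (27 / 20))
      (931 / 1250) (100 / 159) (-1 / 2000) :=
    cons2 hμ hψ0 hQ0 (159 / 100) 1 ((161 / 100) * (159 / 100)) (-(161 / 100)) (1478853 / 2150000) (-29413569 / 26875000) (by norm_num) (by norm_num)
      (by norm_num) (by norm_num)
      (fun r hr => g2_l1 (le_trans (by norm_num) hr.1) (le_trans hr.2 (by norm_num)))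
      (fun r hr => le_of_eq (g2_q1 (le_trans (by norm_num) hr.1.le)
        (lt_of_lt_of_le hr.2 (by norm_num))))
      (by rintro _ _ _ _ rfl rfl rfl rfl; norm_num) h1
  exact h0

theorem e2_l1 {r : ℝ} (h1 : (100 / 143) ≤ r) (h2 : r ≤ (200 / 183)) :
    psi2 (143 / 100) (449 / 250) (7 / 5) (43 / 50) r = (143 / 100) - 1 / r :=
  psi2_line1 (by linarith) (by linarith) (by linarith) (by linarith)

theorem e2_l2 {r : ℝ} (h1 : (200 / 183) ≤ r) (h2 : r ≤ (175 / 117)) :
    psi2 (143 / 100) (449 / 250) (7 / 5) (43 / 50) r = (449 / 250) - (7 / 5) / r :=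
  psi2_line2 (by linarith) (by linarith) (by linarith) (by linarith)

theorem e2_l3 {r : ℝ} (h1 : (175 / 117) ≤ r) : psi2 (143 / 100) (449 / 250) (7 / 5) (43 / 50) r = (43 / 50) :=
  psi2_cap (by linarith) (by linarith)

theorem e2_q1 {r : ℝ} (h1 : (100 / 143) ≤ r) (h2 : r < (26 / 25)) :
    Qf (143 / 100) (347 / 250) (26 / 25) (43 / 50) r = (347 / 250) * (143 / 100) + (-(347 / 250)) / r :=
  Qf_low (by norm_num) (by linarith) (by linarith) h2

theorem e2_q2 {r : ℝ} (h1 : (26 / 25) ≤ r) : Qf (143 / 100) (347 / 250) (26 / 25) (43 / 50) r = (43 / 50) := Qf_high h1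

theorem e2_tail : Tail (psi2 (143 / 100) (449 / 250) (7 / 5) (43 / 50))
    (Qf (143 / 100) (347 / 250) (26 / 25) (43 / 50)) (723 / 1250) (100 / 143) (-1 / 2000) := by
  have hμ : (0 : ℝ) ≤ (723 / 1250) := by norm_num
  have hψ0 : ∀ r : ℝ, 0 < r → 0 ≤ psi2 (143 / 100) (449 / 250) (7 / 5) (43 / 50) r :=
    fun r _ => psi2_nonneg (by norm_num) r
  have hQ0 : ∀ r : ℝ, 0 < r → 0 ≤ Qf (143 / 100) (347 / 250) (26 / 25) (43 / 50) r :=
    fun r _ => Qf_nonneg' (by norm_num) r
  have h21 : Tail (psi2 (143 / 100) (449 / 250) (7 / 5) (43 / 50)) (Qf (143 / 100) (347 / 250) (26 / 25) (43 / 50))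
      (723 / 1250) 2 (-95413 / 100000) :=
    last2 (m := (43 / 50)) (M := (43 / 50)) hμ hψ0 hQ0 (56667 / 100000) (-1901 / 2500) (by norm_num) (by norm_num)
      (fun r hr => e2_l3 (le_trans (by norm_num) hr))
      (fun r hr => le_of_eq (e2_q2 (le_trans (by norm_num) hr.le)))
      (by rintro _ _ _ rfl rfl rfl; norm_num)
  have h20 : Tail (psi2 (143 / 100) (449 / 250) (7 / 5) (43 / 50)) (Qf (143 / 100) (347 / 250) (26 / 25) (43 / 50))
      (723 / 1250) (175 / 117) (-56483 / 100000) :=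
    cons2 hμ hψ0 hQ0 (43 / 50) 0 (43 / 50) 0 (3480253 / 5900000) (-455481 / 590000) (by norm_num) (by norm_num)
      (by norm_num) (by norm_num)
      (fun r hr => by rw [e2_l3 (le_trans (by norm_num) hr.1)]; simp)
      (fun r hr => by rw [e2_q2 (le_trans (by norm_num) hr.1.le)]; simp)
      (by rintro _ _ _ _ rfl rfl rfl rfl; norm_num) h21
  have h19 : Tail (psi2 (143 / 100) (449 / 250) (7 / 5) (43 / 50)) (Qf (143 / 100) (347 / 250) (26 / 25) (43 / 50))
      (723 / 1250) (1479 / 1000) (-3491 / 6250) :=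
    cons2 hμ hψ0 hQ0 (449 / 250) (7 / 5) (43 / 50) 0 (-42749 / 10300000) (-3861 / 10300) (by norm_num) (by norm_num)
      (by norm_num) (by norm_num)
      (fun r hr => e2_l2 (le_trans (by norm_num) hr.1) (le_trans hr.2 (by norm_num)))
      (fun r hr => by rw [e2_q2 (le_trans (by norm_num) hr.1.le)]; simp)
      (by rintro _ _ _ _ rfl rfl rfl rfl; norm_num) h20
  have h18 : Tail (psi2 (143 / 100) (449 / 250) (7 / 5) (43 / 50)) (Qf (143 / 100) (347 / 250) (26 / 25) (43 / 50))
      (723 / 1250) (29 / 20) (-27351 / 50000) :=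
    cons2 hμ hψ0 hQ0 (449 / 250) (7 / 5) (43 / 50) 0 (1499 / 50000) (-577 / 1450) (by norm_num) (by norm_num)
      (by norm_num) (by norm_num)
      (fun r hr => e2_l2 (le_trans (by norm_num) hr.1) (le_trans hr.2 (by norm_num)))
      (fun r hr => by rw [e2_q2 (le_trans (by norm_num) hr.1.le)]; simp)
      (by rintro _ _ _ _ rfl rfl rfl rfl; norm_num) h19
  have h17 : Tail (psi2 (143 / 100) (449 / 250) (7 / 5) (43 / 50)) (Qf (143 / 100) (347 / 250) (26 / 25) (43 / 50))
      (723 / 1250) (711 / 500) (-13381 / 25000) :=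
    cons2 hμ hψ0 hQ0 (449 / 250) (7 / 5) (43 / 50) 0 (44111 / 700000) (-589 / 1400) (by norm_num) (by norm_num)
      (by norm_num) (by norm_num)
      (fun r hr => e2_l2 (le_trans (by norm_num) hr.1) (le_trans hr.2 (by norm_num)))
      (fun r hr => by rw [e2_q2 (le_trans (by norm_num) hr.1.le)]; simp)
      (by rintro _ _ _ _ rfl rfl rfl rfl; norm_num) h18
  have h16 : Tail (psi2 (143 / 100) (449 / 250) (7 / 5) (43 / 50)) (Qf (143 / 100) (347 / 250) (26 / 25) (43 / 50))
      (723 / 1250) (279 / 200) (-52329 / 100000) :=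
    cons2 hμ hψ0 hQ0 (449 / 250) (7 / 5) (43 / 50) 0 (14119 / 150000) (-239 / 540) (by norm_num) (by norm_num)
      (by norm_num) (by norm_num)
      (fun r hr => e2_l2 (le_trans (by norm_num) hr.1) (le_trans hr.2 (by norm_num)))
      (fun r hr => by rw [e2_q2 (le_trans (by norm_num) hr.1.le)]; simp)
      (by rintro _ _ _ _ rfl rfl rfl rfl; norm_num) h17
  have h15 : Tail (psi2 (143 / 100) (449 / 250) (7 / 5) (43 / 50)) (Qf (143 / 100) (347 / 250) (26 / 25) (43 / 50))
      (723 / 1250) (137 / 100) (-5117 / 10000) :=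
    cons2 hμ hψ0 hQ0 (449 / 250) (7 / 5) (43 / 50) 0 (15429 / 125000) (-1159 / 2500) (by norm_num) (by norm_num)
      (by norm_num) (by norm_num)
      (fun r hr => e2_l2 (le_trans (by norm_num) hr.1) (le_trans hr.2 (by norm_num)))
      (fun r hr => by rw [e2_q2 (le_trans (by norm_num) hr.1.le)]; simp)
      (by rintro _ _ _ _ rfl rfl rfl rfl; norm_num) h16
  have h14 : Tail (psi2 (143 / 100) (449 / 250) (7 / 5) (43 / 50)) (Qf (143 / 100) (347 / 250) (26 / 25) (43 / 50))
      (723 / 1250) (168 / 125) (-24953 / 50000) :=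
    cons2 hμ hψ0 hQ0 (449 / 250) (7 / 5) (43 / 50) 0 (20063 / 130000) (-158 / 325) (by norm_num) (by norm_num)
      (by norm_num) (by norm_num)
      (fun r hr => e2_l2 (le_trans (by norm_num) hr.1) (le_trans hr.2 (by norm_num)))
      (fun r hr => by rw [e2_q2 (le_trans (by norm_num) hr.1.le)]; simp)
      (by rintro _ _ _ _ rfl rfl rfl rfl; norm_num) h15
  have h13 : Tail (psi2 (143 / 100) (449 / 250) (7 / 5) (43 / 50)) (Qf (143 / 100) (347 / 250) (26 / 25) (43 / 50))
      (723 / 1250) (1321 / 1000) (-2437 / 5000) :=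
    cons2 hμ hψ0 hQ0 (449 / 250) (7 / 5) (43 / 50) 0 (209633 / 1150000) (-583 / 1150) (by norm_num) (by norm_num)
      (by norm_num) (by norm_num)
      (fun r hr => e2_l2 (le_trans (by norm_num) hr.1) (le_trans hr.2 (by norm_num)))
      (fun r hr => by rw [e2_q2 (le_trans (by norm_num) hr.1.le)]; simp)
      (by rintro _ _ _ _ rfl rfl rfl rfl; norm_num) h14
  have h12 : Tail (psi2 (143 / 100) (449 / 250) (7 / 5) (43 / 50)) (Qf (143 / 100) (347 / 250) (26 / 25) (43 / 50))
      (723 / 1250) (1299 / 1000) (-47579 / 100000) :=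
    cons2 hμ hψ0 hQ0 (449 / 250) (7 / 5) (43 / 50) 0 (461401 / 2200000) (-1161 / 2200) (by norm_num) (by norm_num)
      (by norm_num) (by norm_num)
      (fun r hr => e2_l2 (le_trans (by norm_num) hr.1) (le_trans hr.2 (by norm_num)))
      (fun r hr => by rw [e2_q2 (le_trans (by norm_num) hr.1.le)]; simp)
      (by rintro _ _ _ _ rfl rfl rfl rfl; norm_num) h13
  have h11 : Tail (psi2 (143 / 100) (449 / 250) (7 / 5) (43 / 50)) (Qf (143 / 100) (347 / 250) (26 / 25) (43 / 50))
      (723 / 1250) (639 / 500) (-46427 / 100000) :=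
    cons2 hμ hψ0 hQ0 (449 / 250) (7 / 5) (43 / 50) 0 (165763 / 700000) (-96 / 175) (by norm_num) (by norm_num)
      (by norm_num) (by norm_num)
      (fun r hr => e2_l2 (le_trans (by norm_num) hr.1) (le_trans hr.2 (by norm_num)))
      (fun r hr => by rw [e2_q2 (le_trans (by norm_num) hr.1.le)]; simp)
      (by rintro _ _ _ _ rfl rfl rfl rfl; norm_num) h12
  have h10 : Tail (psi2 (143 / 100) (449 / 250) (7 / 5) (43 / 50)) (Qf (143 / 100) (347 / 250) (26 / 25) (43 / 50))
      (723 / 1250) (1259 / 1000) (-22673 / 50000) :=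
    cons2 hμ hψ0 hQ0 (449 / 250) (7 / 5) (43 / 50) 0 (99881 / 380000) (-1081 / 1900) (by norm_num) (by norm_num)
      (by norm_num) (by norm_num)
      (fun r hr => e2_l2 (le_trans (by norm_num) hr.1) (le_trans hr.2 (by norm_num)))
      (fun r hr => by rw [e2_q2 (le_trans (by norm_num) hr.1.le)]; simp)
      (by rintro _ _ _ _ rfl rfl rfl rfl; norm_num) h11
  have h9 : Tail (psi2 (143 / 100) (449 / 250) (7 / 5) (43 / 50)) (Qf (143 / 100) (347 / 250) (26 / 25) (43 / 50))
      (723 / 1250) (31 / 25) (-1769 / 4000) :=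
    cons2 hμ hψ0 hQ0 (449 / 250) (7 / 5) (43 / 50) 0 (5787 / 20000) (-59 / 100) (by norm_num) (by norm_num)
      (by norm_num) (by norm_num)
      (fun r hr => e2_l2 (le_trans (by norm_num) hr.1) (le_trans hr.2 (by norm_num)))
      (fun r hr => by rw [e2_q2 (le_trans (by norm_num) hr.1.le)]; simp)
      (by rintro _ _ _ _ rfl rfl rfl rfl; norm_num) h10
  have h8 : Tail (psi2 (143 / 100) (449 / 250) (7 / 5) (43 / 50)) (Qf (143 / 100) (347 / 250) (26 / 25) (43 / 50))
      (723 / 1250) (1223 / 1000) (-43187 / 100000) :=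
    cons2 hμ hψ0 hQ0 (449 / 250) (7 / 5) (43 / 50) 0 (107059 / 340000) (-519 / 850) (by norm_num) (by norm_num)
      (by norm_num) (by norm_num)
      (fun r hr => e2_l2 (le_trans (by norm_num) hr.1) (le_trans hr.2 (by norm_num)))
      (fun r hr => by rw [e2_q2 (le_trans (by norm_num) hr.1.le)]; simp)
      (by rintro _ _ _ _ rfl rfl rfl rfl; norm_num) h9
  have h7 : Tail (psi2 (143 / 100) (449 / 250) (7 / 5) (43 / 50)) (Qf (143 / 100) (347 / 250) (26 / 25) (43 / 50))
      (723 / 1250) (151 / 125) (-21121 / 50000) :=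
    cons2 hμ hψ0 hQ0 (449 / 250) (7 / 5) (43 / 50) 0 (16931 / 50000) (-63 / 100) (by norm_num) (by norm_num)
      (by norm_num) (by norm_num)
      (fun r hr => e2_l2 (le_trans (by norm_num) hr.1) (le_trans hr.2 (by norm_num)))
      (fun r hr => by rw [e2_q2 (le_trans (by norm_num) hr.1.le)]; simp)
      (by rintro _ _ _ _ rfl rfl rfl rfl; norm_num) h8
  have h6 : Tail (psi2 (143 / 100) (449 / 250) (7 / 5) (43 / 50)) (Qf (143 / 100) (347 / 250) (26 / 25) (43 / 50))
      (723 / 1250) (1193 / 1000) (-20633 / 50000) :=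
    cons2 hμ hψ0 hQ0 (449 / 250) (7 / 5) (43 / 50) 0 (272689 / 750000) (-244 / 375) (by norm_num) (by norm_num)
      (by norm_num) (by norm_num)
      (fun r hr => e2_l2 (le_trans (by norm_num) hr.1) (le_trans hr.2 (by norm_num)))
      (fun r hr => by rw [e2_q2 (le_trans (by norm_num) hr.1.le)]; simp)
      (by rintro _ _ _ _ rfl rfl rfl rfl; norm_num) h7
  have h5 : Tail (psi2 (143 / 100) (449 / 250) (7 / 5) (43 / 50)) (Qf (143 / 100) (347 / 250) (26 / 25) (43 / 50))
      (723 / 1250) (1179 / 1000) (-20163 / 50000) :=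
    cons2 hμ hψ0 hQ0 (449 / 250) (7 / 5) (43 / 50) 0 (33981 / 87500) (-47 / 70) (by norm_num) (by norm_num)
      (by norm_num) (by norm_num)
      (fun r hr => e2_l2 (le_trans (by norm_num) hr.1) (le_trans hr.2 (by norm_num)))
      (fun r hr => by rw [e2_q2 (le_trans (by norm_num) hr.1.le)]; simp)
      (by rintro _ _ _ _ rfl rfl rfl rfl; norm_num) h6
  have h4 : Tail (psi2 (143 / 100) (449 / 250) (7 / 5) (43 / 50)) (Qf (143 / 100) (347 / 250) (26 / 25) (43 / 50))
      (723 / 1250) (1167 / 1000) (-39497 / 100000) :=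
    cons2 hμ hψ0 hQ0 (449 / 250) (7 / 5) (43 / 50) 0 (164493 / 400000) (-829 / 1200) (by norm_num) (by norm_num)
      (by norm_num) (by norm_num)
      (fun r hr => e2_l2 (le_trans (by norm_num) hr.1) (le_trans hr.2 (by norm_num)))
      (fun r hr => by rw [e2_q2 (le_trans (by norm_num) hr.1.le)]; simp)
      (by rintro _ _ _ _ rfl rfl rfl rfl; norm_num) h5
  have h3 : Tail (psi2 (143 / 100) (449 / 250) (7 / 5) (43 / 50)) (Qf (143 / 100) (347 / 250) (26 / 25) (43 / 50))
      (723 / 1250) (1153 / 1000) (-1203 / 3125) :=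
    cons2 hμ hψ0 hQ0 (449 / 250) (7 / 5) (43 / 50) 0 (87887 / 200000) (-143 / 200) (by norm_num) (by norm_num)
      (by norm_num) (by norm_num)
      (fun r hr => e2_l2 (le_trans (by norm_num) hr.1) (le_trans hr.2 (by norm_num)))
      (fun r hr => by rw [e2_q2 (le_trans (by norm_num) hr.1.le)]; simp)
      (by rintro _ _ _ _ rfl rfl rfl rfl; norm_num) h4
  have h2 : Tail (psi2 (143 / 100) (449 / 250) (7 / 5) (43 / 50)) (Qf (143 / 100) (347 / 250) (26 / 25) (43 / 50))
      (723 / 1250) (200 / 183) (-33393 / 100000) :=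
    cons2 hμ hψ0 hQ0 (449 / 250) (7 / 5) (43 / 50) 0 (653310393 / 1099900000) (-933849 / 1099900) (by norm_num) (by norm_num)
      (by norm_num) (by norm_num)
      (fun r hr => e2_l2 (le_trans (by norm_num) hr.1) (le_trans hr.2 (by norm_num)))
      (fun r hr => by rw [e2_q2 (le_trans (by norm_num) hr.1.le)]; simp)
      (by rintro _ _ _ _ rfl rfl rfl rfl; norm_num) h3
  have h1 : Tail (psi2 (143 / 100) (449 / 250) (7 / 5) (43 / 50)) (Qf (143 / 100) (347 / 250) (26 / 25) (43 / 50))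
      (723 / 1250) (26 / 25) (-1347 / 5000) :=
    cons2 hμ hψ0 hQ0 (143 / 100) 1 (43 / 50) 0 (12091947 / 12100000) (-1180899 / 968000) (by norm_num) (by norm_num)
      (by norm_num) (by norm_num)
      (fun r hr => e2_l1 (le_trans (by norm_num) hr.1) (le_trans hr.2 (by norm_num)))
      (fun r hr => by rw [e2_q2 (le_trans (by norm_num) hr.1.le)]; simp)
      (by rintro _ _ _ _ rfl rfl rfl rfl; norm_num) h2
  have h0 : Tail (psi2 (143 / 100) (449 / 250) (7 / 5) (43 / 50)) (Qf (143 / 100) (347 / 250) (26 / 25) (43 / 50))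
      (723 / 1250) (100 / 143) (-1 / 2000) :=
    cons2 hμ hψ0 hQ0 (143 / 100) 1 ((347 / 250) * (143 / 100)) (-(347 / 250)) (671641 / 1218000) (-384527 / 487200) (by norm_num) (by norm_num)
      (by norm_num) (by norm_num)
      (fun r hr => e2_l1 (le_trans (by norm_num) hr.1) (le_trans hr.2 (by norm_num)))
      (fun r hr => le_of_eq (e2_q1 (le_trans (by norm_num) hr.1.le)
        (lt_of_lt_of_le hr.2 (by norm_num))))
      (by rintro _ _ _ _ rfl rfl rfl rfl; norm_num) h1
  exact h0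

end Pool.Agent.Helper10.Ram
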