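import Mathlib

set_option autoImplicit false

/-!
# Upper half-space model of hyperbolic 3-space: basic definitions

Points are pairs `(z, r)` with `z : ℂ`, `r : ℝ`; hyperbolic 3-space is the part `0 < r`.
-/

namespace Pool.Agent.Helper10.Ram

open Complex MeasureTheory

/-- ambient space `ℂ × ℝ` of the upper half-space model -/
abbrev Pt := ℂ × ℝ

/-- `SL₂(ℂ)` -/
abbrev SL2C := Matrix.SpecialLinearGroup (Fin 2) ℂ

/-- the upper half-space (hyperbolic 3-space) -/
def UH : Set Pt := {p | 0 < p.2}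

/-- `|c z + d|² + |c|² r²` for `g = (a b; c d)` and `p = (z, r)` -/
noncomputable def den (g : SL2C) (p : Pt) : ℝ :=
  ‖g 1 0 * p.1 + g 1 1‖ ^ 2 + ‖g 1 0‖ ^ 2 * p.2 ^ 2

/-- the action of `SL₂(ℂ)` on the upper half-space by orientation preserving isometries -/
noncomputable def act (g : SL2C) (p : Pt) : Pt :=
  (((g 0 0 * p.1 + g 0 1) * (starRingEnd ℂ) (g 1 0 * p.1 + g 1 1)
      + g 0 0 * (starRingEnd ℂ) (g 1 0) * (p.2 : ℂ) ^ 2) / (den g p : ℂ),
    p.2 / den g p)

/-- first coordinate direction (real part of `z`) -/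
def e1 : Pt := (1, 0)
/-- second coordinate direction (imaginary part of `z`) -/
noncomputable def e2 : Pt := (I, 0)
/-- third coordinate direction (the height `r`) -/
def e3 : Pt := (0, 1)

/-- directional derivative -/
noncomputable def pd (e : Pt) (f : Pt → ℂ) (p : Pt) : ℂ := fderiv ℝ f p e

/-- hyperbolic Laplacian `r² (f_xx + f_yy + f_rr) - r f_r` -/
noncomputable def lap (f : Pt → ℂ) (p : Pt) : ℂ :=
  (p.2 : ℂ) ^ 2 * (pd e1 (pd e1 f) p + pd e2 (pd e2 f) p + pd e3 (pd e3 f) p)
    - (p.2 : ℂ) * pd e3 f p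

/-- `SL₂(R)` as a subgroup of `SL₂(ℂ)`, for a subring `R` of `ℂ` -/
noncomputable def Gam (R : Subring ℂ) : Subgroup SL2C :=
  (Matrix.SpecialLinearGroup.map (n := Fin 2) R.subtype).range

/-- the translation matrix `(1 x; 0 1)` -/
noncomputable def trans (x : ℂ) : SL2C := ⟨!![1, x; 0, 1], by simp [Matrix.det_fin_two]⟩

/-- the ring generated by `τ`; for `τ = i` the Gaussian integers, for
`τ = (1 + √-3)/2` the Eisenstein integers -/
def intRing (τ : ℂ) : Subring ℂ := Subring.closure {τ}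

/-- the sixth root of unity `(1 + √-3)/2` -/
noncomputable def omega : ℂ := (1 + Real.sqrt 3 * I) / 2

end Pool.Agent.Helper10.Ram
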