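import Pool.Agent.Helper10.Ram.Base

set_option autoImplicit false

/-!
# Assembly of the lower bound for the cuspidal eigenvalues
-/

namespace Pool.Agent.Helper10.Ram

open Complex MeasureTheory Topology
open scoped ENNReal

theorem isOpen_UH : IsOpen UH := isOpen_lt continuous_const continuous_snd

theorem measurableSet_UH : MeasurableSet UH := isOpen_UH.measurableSet

theorem ae_hyp_mem : ∀ᵐ p ∂hyp, p ∈ UH :=
  (withDensity_absolutelyContinuous _ _).ae_le (ae_restrict_mem measurableSet_UH)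

theorem lintegral_hyp (F : Pt → ℝ≥0∞) (hF : Measurable F) :
    ∫⁻ p, F p ∂hyp = ∫⁻ p in UH, ENNReal.ofReal ((p.2 ^ 3)⁻¹) * F p := by
  rw [hyp, lintegral_withDensity_eq_lintegral_mul _ (by fun_prop) hF]
  rfl

theorem measurableSet_siegel (C a : ℝ) : MeasurableSet {p : Pt | ‖p.1‖ ≤ C ∧ a ≤ p.2} := by
  have : {p : Pt | ‖p.1‖ ≤ C ∧ a ≤ p.2} = {p : Pt | ‖p.1‖ ≤ C} ∩ {p : Pt | a ≤ p.2} := rfl
  rw [this]
  exact (measurableSet_le measurable_fst.norm measurable_const).inter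
    (measurableSet_le measurable_const measurable_snd)

/-- the hyperbolic volume of a Siegel-type set is finite -/
theorem hyp_siegel (C a : ℝ) (ha : 0 < a) : hyp {p : Pt | ‖p.1‖ ≤ C ∧ a ≤ p.2} < ⊤ := by
  have hmeas := measurableSet_siegel C a
  have h1 : hyp {p : Pt | ‖p.1‖ ≤ C ∧ a ≤ p.2}
      ≤ ∫⁻ p : Pt in (Metric.closedBall (0:ℂ) C) ×ˢ (Set.Ici a), ENNReal.ofReal ((p.2 ^ 3)⁻¹) := by
    rw [hyp, withDensity_apply _ hmeas]
    rw [Measure.restrict_restrict hmeas]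
    apply lintegral_mono' (Measure.restrict_mono ?_ le_rfl) le_rfl
    rintro p ⟨⟨h1, h2⟩, h3⟩
    exact ⟨by simpa using h1, h2⟩
  refine lt_of_le_of_lt h1 ?_
  rw [show (volume : Measure Pt) = (volume : Measure ℂ).prod (volume : Measure ℝ) from rfl,
    ← Measure.prod_restrict]
  rw [lintegral_prod _ (by fun_prop)]
  simp only
  rw [lintegral_const]
  apply ENNReal.mul_lt_top
  · have : IntegrableOn (fun r : ℝ => (r ^ 3)⁻¹) (Set.Ici a) := by
      have h := integrableOn_Ioi_rpow_of_lt (a := -3) (by norm_num) ha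
      rw [integrableOn_Ici_iff_integrableOn_Ioi]
      refine h.congr_fun ?_ measurableSet_Ioi
      intro x hx
      have hx0 : 0 < x := lt_trans ha hx
      simp only
      rw [show (-3 : ℝ) = -((3 : ℕ) : ℝ) by norm_num, Real.rpow_neg hx0.le, Real.rpow_natCast]
    exact this.lintegral_lt_top
  · rw [Measure.restrict_apply_univ]
    exact measure_closedBall_lt_top

theorem Kap.le_one {R : Subring ℂ} {κ : Pt → ℝ} {C a : ℝ} (hK : Kap R κ C a) {p : Pt}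
    (hp : p ∈ UH) : κ p ≤ 1 := by
  have h := hK.sum p hp
  have h1 := le_hasSum h (1 : Gam R) (fun j _ => hK.nonneg _)
  simpa [act_one] using h1

theorem Kap.lintegral_lt_top {R : Subring ℂ} {κ : Pt → ℝ} {C a : ℝ} (hK : Kap R κ C a) :
    ∫⁻ p, ENNReal.ofReal (κ p) ∂hyp < ⊤ := by
  have hmeas := measurableSet_siegel C a
  refine lt_of_le_of_lt ?_ (hyp_siegel C a hK.pos)
  rw [← lintegral_indicator_one hmeas]
  apply lintegral_mono_ae
  filter_upwards [ae_hyp_mem] with p hp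
  by_cases h : p ∈ {p : Pt | ‖p.1‖ ≤ C ∧ a ≤ p.2}
  · rw [Set.indicator_of_mem h]
    simpa using hK.le_one hp
  · have : κ p = 0 := by
      by_contra h0
      exact h (hK.supp p h0)
    simp [this]

/-- abstract weight functions `ψ` (energy) and `Q` (mass) for the main argument -/
structure AWeights (R : Subring ℂ) (τ ν : ℂ) (ψ Q : ℝ → ℝ) (μ nuM : ℝ) : Prop where
  hψ : Measurable ψ
  hQ : Measurable Q
  hnuM : 0 < nuM
  up : ∀ p ∈ UH, ∑' v : Prim R, ENNReal.ofReal (ψ (1 / uval v p)) ≤ ENNReal.ofReal nuM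
  low : ∀ p ∈ UH, ENNReal.ofReal nuM ≤
    ∑' v : Prim R, ENNReal.ofReal (Q (1 / uval v p))
  strip : ∀ (u : Pt → ℂ) (B : ℝ), ContDiffOn ℝ 1 u UH → (∀ p ∈ UH, ‖u p‖ ≤ B) →
    (∀ r : ℝ, 0 < r →
      ENNReal.ofReal μ * cellInt τ ν (fun p => ENNReal.ofReal (‖u p‖ ^ 2)) r
        ≤ cellInt τ ν (fun p => ENNReal.ofReal (‖pd e1 u p‖ ^ 2 + ‖pd e2 u p‖ ^ 2)) r) →
    ∫⁻ r in Set.Ioi (0 : ℝ), ENNReal.ofReal (Q r) *
        cellInt τ ν (fun p => ENNReal.ofReal (‖u p‖ ^ 2)) r * ENNReal.ofReal ((r ^ 3)⁻¹)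
      ≤ ∫⁻ r in Set.Ioi (0 : ℝ), ENNReal.ofReal (ψ r) *
        cellInt τ ν (fun p => ENNReal.ofReal (gsq u p)) r * ENNReal.ofReal ((r ^ 3)⁻¹)

/-- the hypotheses of the main argument for the explicit weight functions -/
structure Weights (R : Subring ℂ) (c m s R1 M a b r2 b2 μ nuM : ℝ) : Prop where
  hm : 0 < m
  hmc : m < c
  hb : 0 ≤ b
  ha : 0 ≤ a
  hac : a * c ≤ 1
  hr2 : 1 / (c - m) ≤ r2
  hμ : 0 ≤ μ
  hM : 0 ≤ M
  hnuM : 0 < nuM
  up : ∀ p ∈ UH, ∑' v : Prim R, ENNReal.ofReal (psi c m (1 / uval v p)) ≤ ENNReal.ofReal nuM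
  low : ∀ p ∈ UH, ENNReal.ofReal nuM ≤
    ∑' v : Prim R, ENNReal.ofReal (Qf c s R1 M (1 / uval v p))
  qf : ∀ r : ℝ, 0 < r → Qf c s R1 M r ≤ qf c m a b r2 b2 μ r

theorem measurable_pd (e : Pt) (f : Pt → ℂ) : Measurable (pd e f) :=
  measurable_fderiv_apply_const ℝ f e

theorem measurable_gsq (f : Pt → ℂ) : Measurable (gsq f) := by
  unfold gsq
  have h1 := measurable_pd e1 f
  have h2 := measurable_pd e2 f
  have h3 := measurable_pd e3 f
  fun_prop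

theorem measurable_psi (c m : ℝ) : Measurable (psi c m) := by
  unfold psi
  fun_prop

theorem measurable_Qf (c s R1 M : ℝ) : Measurable (Qf c s R1 M) := by
  unfold Qf
  exact Measurable.ite measurableSet_Iio (by fun_prop) measurable_const

theorem Qf_nonneg {c s R1 M : ℝ} (hM : 0 ≤ M) (r : ℝ) : 0 ≤ Qf c s R1 M r := by
  unfold Qf
  split_ifs
  · exact le_max_left _ _
  · exact hM

theorem Weights.toAWeights {R : Subring ℂ} {c m s R1 M a b r2 b2 μ nuM : ℝ}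
    (hw : Weights R c m s R1 M a b r2 b2 μ nuM) (τ ν : ℂ) :
    AWeights R τ ν (psi c m) (Qf c s R1 M) μ nuM where
  hψ := measurable_psi c m
  hQ := measurable_Qf c s R1 M
  hnuM := hw.hnuM
  up := hw.up
  low := hw.low
  strip := fun _ _ hu hB hW => strip_ineq hu hB hw.hm hw.hmc hw.hb hw.ha hw.hac hw.hr2 hW hw.hμ
    (measurable_Qf c s R1 M) (fun r _ => Qf_nonneg hw.hM r) hw.qf

theorem gsq_nonneg (f : Pt → ℂ) (p : Pt) : 0 ≤ gsq f p := by
  unfold gsq; positivity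

theorem cellInt_finset_sum (τ ν : ℂ) {ι : Type} (S : Finset ι) (F : ι → Pt → ℝ≥0∞)
    (hF : ∀ i, Measurable (F i)) (r : ℝ) :
    cellInt τ ν (fun p => ∑ i ∈ S, F i p) r = ∑ i ∈ S, cellInt τ ν (F i) r := by
  unfold cellInt
  have h1 : ∀ i, Measurable (fun q : ℝ × ℝ => F i (ν * (q.1 + q.2 * τ), r)) := by
    intro i
    exact (hF i).comp (by fun_prop)
  have h2 : ∀ s : ℝ, (∫⁻ t in Set.Icc (0 : ℝ) 1, ∑ i ∈ S, F i (ν * (s + t * τ), r))
      = ∑ i ∈ S, ∫⁻ t in Set.Icc (0 : ℝ) 1, F i (ν * (s + t * τ), r) := by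
    intro s
    rw [lintegral_finsetSum]
    intro i _
    exact (h1 i).comp (measurable_const.prodMk measurable_id)
  simp_rw [h2]
  rw [lintegral_finsetSum]
  intro i _
  exact (h1 i).lintegral_prod_right'

theorem measurable_cellInt (τ ν : ℂ) (F : Pt → ℝ≥0∞) (hF : Measurable F) :
    Measurable (cellInt τ ν F) := by
  unfold cellInt
  have h1 : Measurable (fun q : (ℝ × ℝ) × ℝ => F (ν * (q.1.2 + q.2 * τ), q.1.1)) :=
    hF.comp (by fun_prop)
  have h2 : Measurable (fun q : ℝ × ℝ => ∫⁻ t in Set.Icc (0 : ℝ) 1,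
      F (ν * (q.2 + t * τ), q.1)) := h1.lintegral_prod_right'
  exact h2.lintegral_prod_right'

theorem trans_mem_Gam {R : Subring ℂ} {x : ℂ} (hx : x ∈ R) : trans x ∈ Gam R := by
  refine ⟨⟨!![1, ⟨x, hx⟩; 0, 1], by simp [Matrix.det_fin_two]⟩, ?_⟩
  ext i j
  change (((!![1, ⟨x, hx⟩; 0, 1] : Matrix (Fin 2) (Fin 2) R) i j : R) : ℂ)
    = (!![1, x; 0, 1] : Matrix (Fin 2) (Fin 2) ℂ) i j
  fin_cases i <;> fin_cases j <;> simp

theorem main_sys {R : Subring ℂ} {τ : ℂ} (hR : NiceRing R) (hτ : IsLat R τ) {C0 a0 : ℝ}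
    (ha0 : 0 < a0) (hcov : Covers R C0 a0)
    {ν : ℂ} (hν : ν ∈ R) (hν0 : ν ≠ 0)
    {ψ Q : ℝ → ℝ} {μ nuM : ℝ} (hw : AWeights R τ ν ψ Q μ nuM)
    {ι : Type} [Fintype ι] {u : ι → Pt → ℂ} (hS : Sys R ι u) (hum : ∀ i, Measurable (u i))
    {B : ℝ} (hB : ∀ i, ∀ p ∈ UH, ‖u i p‖ ≤ B) (lam : ℂ) (heig : ∀ i, WeakEig lam (u i))
    (hW : ∀ i, ∀ r : ℝ, 0 < r →
      ENNReal.ofReal μ * cellInt τ ν (fun p => ENNReal.ofReal (‖u i p‖ ^ 2)) r
        ≤ cellInt τ ν (fun p => ENNReal.ofReal (‖pd e1 (u i) p‖ ^ 2 + ‖pd e2 (u i) p‖ ^ 2)) r)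
    (hne : ∃ i, ∃ p ∈ UH, u i p ≠ 0) : lam.im = 0 ∧ 1 ≤ lam.re := by
  obtain ⟨κ, C, a', hK⟩ := exists_kap hR ha0 hcov
  set FA : Pt → ℝ≥0∞ := fun p => ENNReal.ofReal (∑ i, ‖u i p‖ ^ 2) with hFA
  set FB : Pt → ℝ≥0∞ := fun p => ENNReal.ofReal (∑ i, gsq (u i) p) with hFB
  have hFAm : Measurable FA := by
    apply Measurable.ennreal_ofReal
    exact Finset.measurable_sum _ (fun i _ => ((hum i).norm.pow_const 2))
  have hFBm : Measurable FB := by
    apply Measurable.ennreal_ofReal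
    exact Finset.measurable_sum _ (fun i _ => measurable_gsq (u i))
  have hκm : Measurable (fun p => ENNReal.ofReal (κ p)) :=
    hK.smooth.continuous.measurable.ennreal_ofReal
  have hSAm : Measurable (fun p => ENNReal.ofReal (κ p) * FA p) := hκm.mul hFAm
  have hSBm : Measurable (fun p => ENNReal.ofReal (κ p) * FB p) := hκm.mul hFBm
  -- invariance
  have hFAi : ∀ γ ∈ Gam R, ∀ p ∈ UH, FA (act γ p) = FA p := by
    intro γ hγ p hp
    obtain ⟨σ, hσ⟩ := hS.perm γ hγ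
    simp only [hFA]
    congr 1
    rw [← Equiv.sum_comp σ (fun i => ‖u i p‖ ^ 2)]
    exact Finset.sum_congr rfl (fun i _ => by rw [hσ i p hp])
  have hdiff : ∀ i, ∀ p ∈ UH, DifferentiableAt ℝ (u i) p := by
    intro i p hp
    exact ((hS.smooth i).contDiffAt (isOpen_UH.mem_nhds hp)).differentiableAt (by norm_num)
  have hFBi : ∀ γ ∈ Gam R, ∀ p ∈ UH, FB (act γ p) = FB p := by
    intro γ hγ p hp
    obtain ⟨σ, hσ⟩ := hS.perm γ hγ
    simp only [hFB]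
    congr 1
    rw [← Equiv.sum_comp σ (fun i => gsq (u i) p)]
    refine Finset.sum_congr rfl (fun i _ => ?_)
    rw [← gsq_comp_act γ hp (hdiff i _ (act_mem γ hp))]
    have he : (fun q => u i (act γ q)) =ᶠ[𝓝 p] u (σ i) := by
      filter_upwards [isOpen_UH.mem_nhds hp] with q hq using hσ i q hq
    unfold gsq pd
    rw [he.fderiv_eq]
  set SA := ∫⁻ p, ENNReal.ofReal (κ p) * FA p ∂hyp with hSA
  set SB := ∫⁻ p, ENNReal.ofReal (κ p) * FB p ∂hyp with hSB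
  -- SA is finite
  have hSAtop : SA ≠ ⊤ := by
    have hle : SA ≤ ∫⁻ p, ENNReal.ofReal (κ p) * ENNReal.ofReal (∑ _i : ι, B ^ 2) ∂hyp := by
      apply lintegral_mono_ae
      filter_upwards [ae_hyp_mem] with p hp
      gcongr
      apply ENNReal.ofReal_le_ofReal
      exact Finset.sum_le_sum (fun i _ => pow_le_pow_left₀ (norm_nonneg _) (hB i p hp) 2)
    refine ne_top_of_le_ne_top ?_ hle
    rw [lintegral_mul_const _ hκm]
    exact ENNReal.mul_ne_top hK.lintegral_lt_top.ne ENNReal.ofReal_ne_top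
  obtain ⟨hE1, hE2⟩ := energy hR hK hS lam heig hSAtop
  change SB ≤ ENNReal.ofReal lam.re * SA at hE1
  change lam.im = 0 ∨ SA = 0 at hE2
  -- SA is positive
  have hSA0 : SA ≠ 0 := by
    intro h0
    have h1 : ∫⁻ p, (1 : ℝ≥0∞) * FA p ∂hyp = 0 := by
      have := unfold hR hK (fun _ => (1 : ℝ≥0∞)) FA measurable_const hFAm hFAi
      rw [this]
      rw [hSA, lintegral_eq_zero_iff hSAm] at h0
      apply (lintegral_eq_zero_iff' ?_).2
      · filter_upwards [h0] with p hp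
        simp only [Pi.zero_apply] at hp ⊢
        rcases mul_eq_zero.1 hp with h | h
        · rw [h]; simp
        · rw [h]; simp
      · exact (hκm.aemeasurable.mul aemeasurable_const).mul hFAm.aemeasurable
    simp only [one_mul] at h1
    rw [lintegral_eq_zero_iff hFAm] at h1
    obtain ⟨i, p, hp, hup⟩ := hne
    -- on a neighbourhood FA is positive
    have hcont : ContinuousOn (u i) UH := (hS.smooth i).continuousOn
    have hopen : IsOpen (UH ∩ u i ⁻¹' {0}ᶜ) :=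
      hcont.isOpen_inter_preimage isOpen_UH isOpen_compl_singleton
    have hnull : hyp (UH ∩ u i ⁻¹' {0}ᶜ) = 0 := by
      have : ∀ᵐ q ∂hyp, q ∉ UH ∩ u i ⁻¹' {0}ᶜ := by
        filter_upwards [h1] with q hq hq2
        simp only [hFA, Pi.zero_apply, ENNReal.ofReal_eq_zero] at hq
        have h3 : ‖u i q‖ ^ 2 ≤ ∑ j, ‖u j q‖ ^ 2 :=
          Finset.single_le_sum (f := fun j => ‖u j q‖ ^ 2) (fun j _ => by positivity)
            (Finset.mem_univ i)
        have h4 : 0 < ‖u i q‖ ^ 2 := by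
          have : u i q ≠ 0 := hq2.2
          positivity
        linarith
      exact measure_eq_zero_iff_ae_notMem.2 this
    have hpos : 0 < volume (UH ∩ u i ⁻¹' {0}ᶜ) := hopen.measure_pos volume ⟨p, hp, hup⟩
    rw [hyp, withDensity_apply_eq_zero' (by fun_prop)] at hnull
    have hsub : {p : Pt | ENNReal.ofReal ((p.2 ^ 3)⁻¹) ≠ 0} ∩ (UH ∩ u i ⁻¹' {0}ᶜ)
        = UH ∩ u i ⁻¹' {0}ᶜ := by
      apply Set.inter_eq_right.2
      rintro q ⟨hq, -⟩
      have : (0 : ℝ) < q.2 := hq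
      simp only [Set.mem_ofPred_eq, ne_eq, ENNReal.ofReal_eq_zero, not_le]
      positivity
    rw [hsub, Measure.restrict_apply hopen.measurableSet, Set.inter_assoc] at hnull
    have hsub2 : UH ∩ (u i ⁻¹' {0}ᶜ ∩ UH) = UH ∩ u i ⁻¹' {0}ᶜ := by
      ext q; simp only [Set.mem_inter_iff]; tauto
    rw [hsub2] at hnull
    exact hpos.ne' hnull
  have him : lam.im = 0 := hE2.resolve_right hSA0
  refine ⟨him, ?_⟩
  -- the chain
  have hper : ∀ F : Pt → ℝ≥0∞, (∀ γ ∈ Gam R, ∀ p ∈ UH, F (act γ p) = F p) →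
      ∀ x ∈ R, ∀ z : ℂ, ∀ r : ℝ, 0 < r → F (z + x, r) = F (z, r) := by
    intro F hF x hx z r hr
    have hmem : trans x ∈ Gam R := trans_mem_Gam hx
    have := hF _ hmem (z, r) hr
    rwa [act_trans] at this
  have hup : ∫⁻ r in Set.Ioi (0 : ℝ), ENNReal.ofReal (ψ r) * cellInt τ 1 FB r
        * ENNReal.ofReal ((r ^ 3)⁻¹) ≤ ENNReal.ofReal (τ.im)⁻¹ * (ENNReal.ofReal nuM * SB) := by
    rw [strip_unfold hR hτ hK _ hw.hψ.ennreal_ofReal FB hFBm hFBi]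
    gcongr
    rw [hSB, ← lintegral_const_mul _ hSBm]
    apply lintegral_mono_ae
    filter_upwards [ae_hyp_mem] with p hp
    calc _ ≤ ENNReal.ofReal (κ p) * ENNReal.ofReal nuM * FB p := by
            gcongr
            exact hw.up p hp
      _ = _ := by ring
  have hlow : ENNReal.ofReal (τ.im)⁻¹ * (ENNReal.ofReal nuM * SA) ≤
      ∫⁻ r in Set.Ioi (0 : ℝ), ENNReal.ofReal (Q r) * cellInt τ 1 FA r
        * ENNReal.ofReal ((r ^ 3)⁻¹) := by
    rw [strip_unfold hR hτ hK _ hw.hQ.ennreal_ofReal FA hFAm hFAi]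
    gcongr
    rw [hSA, ← lintegral_const_mul _ hSAm]
    apply lintegral_mono_ae
    filter_upwards [ae_hyp_mem] with p hp
    calc _ = ENNReal.ofReal (κ p) * ENNReal.ofReal nuM * FA p := by ring
      _ ≤ _ := by
            gcongr
            exact hw.low p hp
  have hcA : ∀ r : ℝ, 0 < r → cellInt τ 1 FA r
      = ∑ i, cellInt τ ν (fun p => ENNReal.ofReal (‖u i p‖ ^ 2)) r := by
    intro r hr
    rw [← cellInt_mul hτ hν hν0 FA hFAm (hper FA hFAi) hr]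
    rw [← cellInt_finset_sum τ ν Finset.univ (fun i p => ENNReal.ofReal (‖u i p‖ ^ 2))
      (fun i => ((hum i).norm.pow_const 2).ennreal_ofReal)]
    congr 1
    funext p
    simp only [hFA]
    rw [ENNReal.ofReal_sum_of_nonneg (fun i _ => by positivity)]
  have hcB : ∀ r : ℝ, 0 < r → cellInt τ 1 FB r
      = ∑ i, cellInt τ ν (fun p => ENNReal.ofReal (gsq (u i) p)) r := by
    intro r hr
    rw [← cellInt_mul hτ hν hν0 FB hFBm (hper FB hFBi) hr]
    rw [← cellInt_finset_sum τ ν Finset.univ (fun i p => ENNReal.ofReal (gsq (u i) p))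
      (fun i => (measurable_gsq (u i)).ennreal_ofReal)]
    congr 1
    funext p
    simp only [hFB]
    rw [ENNReal.ofReal_sum_of_nonneg (fun i _ => gsq_nonneg _ _)]
  have hmid : ∫⁻ r in Set.Ioi (0 : ℝ), ENNReal.ofReal (Q r) * cellInt τ 1 FA r
        * ENNReal.ofReal ((r ^ 3)⁻¹) ≤
      ∫⁻ r in Set.Ioi (0 : ℝ), ENNReal.ofReal (ψ r) * cellInt τ 1 FB r
        * ENNReal.ofReal ((r ^ 3)⁻¹) := by
    have hiA : ∀ i, Measurable (fun r : ℝ => ENNReal.ofReal (Q r) *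
        cellInt τ ν (fun p => ENNReal.ofReal (‖u i p‖ ^ 2)) r * ENNReal.ofReal ((r ^ 3)⁻¹)) := by
      intro i
      exact (hw.hQ.ennreal_ofReal.mul
        (measurable_cellInt τ ν _ ((hum i).norm.pow_const 2).ennreal_ofReal)).mul (by fun_prop)
    have hiB : ∀ i, Measurable (fun r : ℝ => ENNReal.ofReal (ψ r) *
        cellInt τ ν (fun p => ENNReal.ofReal (gsq (u i) p)) r * ENNReal.ofReal ((r ^ 3)⁻¹)) := by
      intro i
      exact (hw.hψ.ennreal_ofReal.mul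
        (measurable_cellInt τ ν _ (measurable_gsq (u i)).ennreal_ofReal)).mul (by fun_prop)
    calc _ = ∫⁻ r in Set.Ioi (0 : ℝ), ∑ i, ENNReal.ofReal (Q r) *
          cellInt τ ν (fun p => ENNReal.ofReal (‖u i p‖ ^ 2)) r * ENNReal.ofReal ((r ^ 3)⁻¹) := by
            apply setLIntegral_congr_fun measurableSet_Ioi
            intro r hr
            simp only
            rw [hcA r hr, Finset.mul_sum, Finset.sum_mul]
      _ = ∑ i, ∫⁻ r in Set.Ioi (0 : ℝ), ENNReal.ofReal (Q r) *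
          cellInt τ ν (fun p => ENNReal.ofReal (‖u i p‖ ^ 2)) r * ENNReal.ofReal ((r ^ 3)⁻¹) :=
            lintegral_finsetSum _ (fun i _ => hiA i)
      _ ≤ ∑ i, ∫⁻ r in Set.Ioi (0 : ℝ), ENNReal.ofReal (ψ r) *
          cellInt τ ν (fun p => ENNReal.ofReal (gsq (u i) p)) r * ENNReal.ofReal ((r ^ 3)⁻¹) := by
            refine Finset.sum_le_sum (fun i _ => ?_)
            exact hw.strip (u i) B ((hS.smooth i).of_le (by norm_num)) (hB i) (hW i)
      _ = ∫⁻ r in Set.Ioi (0 : ℝ), ∑ i, ENNReal.ofReal (ψ r) *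
          cellInt τ ν (fun p => ENNReal.ofReal (gsq (u i) p)) r * ENNReal.ofReal ((r ^ 3)⁻¹) :=
            (lintegral_finsetSum _ (fun i _ => hiB i)).symm
      _ = _ := by
            apply setLIntegral_congr_fun measurableSet_Ioi
            intro r hr
            simp only
            rw [hcB r hr, Finset.mul_sum, Finset.sum_mul]
  have h1 := hlow.trans (hmid.trans hup)
  have hτ0 : ENNReal.ofReal (τ.im)⁻¹ ≠ 0 := by
    have := hτ.im_pos
    simp only [ne_eq, ENNReal.ofReal_eq_zero, not_le]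
    positivity
  have hn0 : ENNReal.ofReal nuM ≠ 0 := by
    simpa using hw.hnuM
  have h2 : SA ≤ SB := by
    rwa [ENNReal.mul_le_mul_iff_right hτ0 ENNReal.ofReal_ne_top,
      ENNReal.mul_le_mul_iff_right hn0 ENNReal.ofReal_ne_top] at h1
  have h3 : 1 * SA ≤ ENNReal.ofReal lam.re * SA := by
    rw [one_mul]; exact h2.trans hE1
  rw [ENNReal.mul_le_mul_iff_left hSA0 hSAtop] at h3
  exact ENNReal.one_le_ofReal.1 h3

theorem pd_congr {f g : Pt → ℂ} (h : ∀ p ∈ UH, f p = g p) (e : Pt) :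
    ∀ p ∈ UH, pd e f p = pd e g p := by
  intro p hp
  have he : f =ᶠ[𝓝 p] g := by
    filter_upwards [isOpen_UH.mem_nhds hp] with q hq using h q hq
  unfold pd
  rw [he.fderiv_eq]

theorem lap_congr {f g : Pt → ℂ} (h : ∀ p ∈ UH, f p = g p) :
    ∀ p ∈ UH, lap f p = lap g p := by
  intro p hp
  unfold lap
  rw [pd_congr (pd_congr h e1) e1 p hp, pd_congr (pd_congr h e2) e2 p hp,
    pd_congr (pd_congr h e3) e3 p hp, pd_congr h e3 p hp]

theorem main {R : Subring ℂ} {τ : ℂ} (hR : NiceRing R) (hτ : IsLat R τ) {C0 a0 : ℝ}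
    (ha0 : 0 < a0) (hcov : Covers R C0 a0)
    {ν : ℂ} (hν : ν ∈ R) (hν0 : ν ≠ 0)
    {ψ Q : ℝ → ℝ} {μ nuM : ℝ} (hw : AWeights R τ ν ψ Q μ nuM)
    (hW : ∀ u : Pt → ℂ, ContDiffOn ℝ 1 u UH →
      (∀ x ∈ R, ∀ p ∈ UH, u (p.1 + ν * x, p.2) = u p) → ∀ r : ℝ, 0 < r →
      (∫ s in (0 : ℝ)..1, ∫ t in (0 : ℝ)..1, u (ν * (s + t * τ), r) = 0) →
      ENNReal.ofReal μ * cellInt τ ν (fun p => ENNReal.ofReal (‖u p‖ ^ 2)) r
        ≤ cellInt τ ν (fun p => ENNReal.ofReal (‖pd e1 u p‖ ^ 2 + ‖pd e2 u p‖ ^ 2)) r)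
    (Δ : Subgroup SL2C) (hfi : Δ.relIndex (Gam R) ≠ 0)
    (hlev : ∀ γ ∈ Gam R, ∀ x ∈ R, γ * trans (ν * x) * γ⁻¹ ∈ Δ)
    (f : Pt → ℂ) (hf : ContDiffOn ℝ 2 f UH) (hinv : ∀ γ ∈ Δ, ∀ p ∈ UH, f (act γ p) = f p)
    (hbdd : ∃ B : ℝ, ∀ p ∈ UH, ‖f p‖ ≤ B)
    (lam : ℂ) (heig : ∀ p ∈ UH, lap f p = -lam * f p)
    (hcusp : ∀ γ ∈ Gam R, ∀ r : ℝ, 0 < r →
      ∫ s in (0 : ℝ)..1, ∫ t in (0 : ℝ)..1, f (act γ (ν * (s + t * τ), r)) = 0)
    (hne : ∃ p ∈ UH, f p ≠ 0) : ∃ l : ℝ, 1 ≤ l ∧ lam = l := by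
  classical
  obtain ⟨B, hB⟩ := hbdd
  set f₀ : Pt → ℂ := UH.indicator f with hf₀
  have hff : ∀ p ∈ UH, f₀ p = f p := fun p hp => Set.indicator_of_mem hp f
  have hf₀c : ContDiffOn ℝ 2 f₀ UH := hf.congr hff
  have hf₀m : Measurable f₀ := by
    have := (hf.continuousOn.measurable_piecewise (g := (0 : Pt → ℂ)) continuous_zero.continuousOn
      measurableSet_UH)
    rwa [Set.piecewise_eq_indicator] at this
  have hf₀i : ∀ γ ∈ Δ, ∀ p ∈ UH, f₀ (act γ p) = f₀ p := by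
    intro γ hγ p hp
    rw [hff _ (act_mem γ hp), hff p hp, hinv γ hγ p hp]
  have hf₀e : WeakEig lam f₀ := by
    apply green hf₀c
    intro p hp
    rw [lap_congr hff p hp, heig p hp, hff p hp]
  let H : Subgroup (Gam R) := Δ.subgroupOf (Gam R)
  have hHi : H.index ≠ 0 := hfi
  have : H.FiniteIndex := ⟨hHi⟩
  have : Finite (Gam R ⧸ H) := Subgroup.finite_quotient_of_finiteIndex
  have : Fintype (Gam R ⧸ H) := Fintype.ofFinite _
  let u : (Gam R ⧸ H) → Pt → ℂ := fun q p => f₀ (act ((q.out : Gam R) : SL2C)⁻¹ p)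
  -- independence of the representative
  have hrep : ∀ (g : Gam R), ∀ p ∈ UH, u (g : Gam R ⧸ H) p = f₀ (act (g : SL2C)⁻¹ p) := by
    intro g p hp
    obtain ⟨h, hh⟩ := QuotientGroup.mk_out_eq_mul H g
    simp only [u]
    rw [hh]
    have e : (((g * (h : Gam R) : Gam R) : SL2C))⁻¹ = ((h : Gam R) : SL2C)⁻¹ * (g : SL2C)⁻¹ := by
      push_cast
      rw [mul_inv_rev]
    rw [e, act_mul _ _ hp]
    apply hf₀i _ _ _ (act_mem _ hp)
    exact Δ.inv_mem h.2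
  have hum : ∀ q, Measurable (u q) := fun q => hf₀m.comp (measurable_act _)
  have huc : ∀ q, ContDiffOn ℝ 2 (u q) UH := fun q =>
    hf₀c.comp (contDiffOn_act _) (fun p hp => act_mem _ hp)
  have hS : Sys R (Gam R ⧸ H) u := by
    refine ⟨huc, ?_⟩
    intro γ hγ
    refine ⟨MulAction.toPerm (⟨γ, hγ⟩⁻¹ : Gam R), ?_⟩
    intro q p hp
    obtain ⟨g, rfl⟩ := QuotientGroup.mk_surjective q
    rw [hrep g _ (act_mem γ hp)]
    have e1' : (MulAction.toPerm (⟨γ, hγ⟩⁻¹ : Gam R)) ((g : Gam R) : Gam R ⧸ H)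
        = (((⟨γ, hγ⟩⁻¹ : Gam R) * g : Gam R) : Gam R ⧸ H) := rfl
    rw [e1', hrep _ p hp, ← act_mul _ _ hp]
    congr 2
    push_cast
    rw [mul_inv_rev, inv_inv]
  have hper : ∀ q, ∀ x ∈ R, ∀ p ∈ UH, u q (p.1 + ν * x, p.2) = u q p := by
    intro q x hx p hp
    simp only [u]
    set g : SL2C := ((q.out : Gam R) : SL2C) with hg
    have hgG : g ∈ Gam R := (q.out : Gam R).2
    have e : g⁻¹ * trans (ν * x) = (g⁻¹ * trans (ν * x) * g) * g⁻¹ := by group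
    rw [← act_trans, ← act_mul _ _ hp, e, act_mul _ _ hp]
    apply hf₀i _ _ _ (act_mem _ hp)
    have := hlev g⁻¹ ((Gam R).inv_mem hgG) x hx
    rwa [inv_inv] at this
  have hmean : ∀ q, ∀ r : ℝ, 0 < r →
      ∫ s in (0 : ℝ)..1, ∫ t in (0 : ℝ)..1, u q (ν * (s + t * τ), r) = 0 := by
    intro q r hr
    rw [← hcusp ((q.out : Gam R) : SL2C)⁻¹ ((Gam R).inv_mem (q.out : Gam R).2) r hr]
    congr 1
    funext s
    congr 1
    funext t
    exact hff _ (act_mem _ hr)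
  have huB : ∀ q, ∀ p ∈ UH, ‖u q p‖ ≤ B := by
    intro q p hp
    simp only [u]
    rw [hff _ (act_mem _ hp)]
    exact hB _ (act_mem _ hp)
  have hne' : ∃ q, ∃ p ∈ UH, u q p ≠ 0 := by
    obtain ⟨p, hp, hfp⟩ := hne
    refine ⟨((1 : Gam R) : Gam R ⧸ H), p, hp, ?_⟩
    rw [hrep 1 p hp]
    simpa [act_one, hff p hp] using hfp
  obtain ⟨h1, h2⟩ := main_sys hR hτ ha0 hcov hν hν0 hw hS hum huB lam
    (fun q => weakEig_comp _ (hf₀c.of_le (by norm_num)) hf₀e)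
    (fun q r hr => hW (u q) ((huc q).of_le (by norm_num)) (hper q) r hr (hmean q r hr)) hne'
  refine ⟨lam.re, h2, ?_⟩
  apply Complex.ext <;> simp [h1]

theorem main_gauss {ν : ℂ} (hν : ν ∈ intRing I) (hν0 : ν ≠ 0) (hνN : ‖ν‖ ^ 2 ≤ 37)
    (Δ : Subgroup SL2C) (hfi : Δ.relIndex (Gam (intRing I)) ≠ 0)
    (hlev : ∀ γ ∈ Gam (intRing I), ∀ x ∈ intRing I, γ * trans (ν * x) * γ⁻¹ ∈ Δ)
    (f : Pt → ℂ) (hf : ContDiffOn ℝ 2 f UH) (hinv : ∀ γ ∈ Δ, ∀ p ∈ UH, f (act γ p) = f p)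
    (hbdd : ∃ B : ℝ, ∀ p ∈ UH, ‖f p‖ ≤ B)
    (lam : ℂ) (heig : ∀ p ∈ UH, lap f p = -lam * f p)
    (hcusp : ∀ γ ∈ Gam (intRing I), ∀ r : ℝ, 0 < r →
      ∫ s in (0 : ℝ)..1, ∫ t in (0 : ℝ)..1, f (act γ (ν * (s + t * I), r)) = 0)
    (hne : ∃ p ∈ UH, f p ≠ 0) : ∃ l : ℝ, 1 ≤ l ∧ lam = l := by
  have hpos : 0 < ‖ν‖ ^ 2 := by positivity
  have hμ : (1.0669 : ℝ) ≤ 4 * Real.pi ^ 2 / ‖ν‖ ^ 2 := by
    rw [le_div_iff₀ hpos]
    have := Real.pi_gt_d6
    nlinarith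
  have hw : Weights (intRing I) (8 / 5) (6 / 5) (178 / 100) (115 / 100) (167 / 125) (61 / 100)
      (104 / 100) (5 / 2) 1 (4 * Real.pi ^ 2 / ‖ν‖ ^ 2) (4 * (167 / 125)) := by
    refine ⟨by norm_num, by norm_num, by norm_num, by norm_num, by norm_num, by norm_num,
      by positivity, by norm_num, by norm_num, fun p hp => upper_gauss hp,
      fun p hp => lower_gauss hp, fun r hr => qf_gauss hμ hr⟩
  exact main niceRing_gauss isLat_gauss (by norm_num) covers_gauss hν hν0 (hw.toAWeights I ν)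
    (fun u hu hp r hr hm => wirtinger_gauss hν0 hu hp hr hm)
    Δ hfi hlev f hf hinv hbdd lam heig hcusp hne

theorem main_eisenstein {ν : ℂ} (hν : ν ∈ intRing omega) (hν0 : ν ≠ 0) (hνN : ‖ν‖ ^ 2 ≤ 73)
    (Δ : Subgroup SL2C) (hfi : Δ.relIndex (Gam (intRing omega)) ≠ 0)
    (hlev : ∀ γ ∈ Gam (intRing omega), ∀ x ∈ intRing omega, γ * trans (ν * x) * γ⁻¹ ∈ Δ)
    (f : Pt → ℂ) (hf : ContDiffOn ℝ 2 f UH) (hinv : ∀ γ ∈ Δ, ∀ p ∈ UH, f (act γ p) = f p)
    (hbdd : ∃ B : ℝ, ∀ p ∈ UH, ‖f p‖ ≤ B)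
    (lam : ℂ) (heig : ∀ p ∈ UH, lap f p = -lam * f p)
    (hcusp : ∀ γ ∈ Gam (intRing omega), ∀ r : ℝ, 0 < r →
      ∫ s in (0 : ℝ)..1, ∫ t in (0 : ℝ)..1, f (act γ (ν * (s + t * omega), r)) = 0)
    (hne : ∃ p ∈ UH, f p ≠ 0) : ∃ l : ℝ, 1 ≤ l ∧ lam = l := by
  have hpos : 0 < ‖ν‖ ^ 2 := by positivity
  have hμ : (0.721 : ℝ) ≤ 4 / 3 * (4 * Real.pi ^ 2) / ‖ν‖ ^ 2 := by
    rw [le_div_iff₀ hpos]
    have := Real.pi_gt_d6
    nlinarith
  have hw : Weights (intRing omega) (141 / 100) (41 / 50) (162 / 100) (1104 / 1000) (41 / 50)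
      (69 / 100) (86 / 100) 3 (82 / 100) (4 / 3 * (4 * Real.pi ^ 2) / ‖ν‖ ^ 2)
      (6 * (41 / 50)) := by
    refine ⟨by norm_num, by norm_num, by norm_num, by norm_num, by norm_num, by norm_num,
      by positivity, by norm_num, by norm_num, fun p hp => upper_eisenstein hp,
      fun p hp => lower_eisenstein hp, fun r hr => qf_eisenstein hμ hr⟩
  exact main niceRing_eisenstein isLat_eisenstein (by norm_num) covers_eisenstein hν hν0
    (hw.toAWeights omega ν) (fun u hu hp r hr hm => wirtinger_eisenstein hν0 hu hp hr hm)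
    Δ hfi hlev f hf hinv hbdd lam heig hcusp hne

end Pool.Agent.Helper10.Ram
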