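import Pool.Agent.Helper10.Ram.Final
import Pool.Agent.Helper10.Ram.Cert2
import Pool.Agent.Helper10.Ram.Base2

set_option autoImplicit false

/-!
# The lower bound with the two-line weights
-/

namespace Pool.Agent.Helper10.Ram

open Complex MeasureTheory Topology Pool.Agent.Helper80.Ram
open scoped ENNReal

theorem weights_gauss2 (ν : ℂ) :
    AWeights (intRing I) I ν (psi2 (159 / 100) (217 / 100) (3 / 2) (135 / 100))
      (Qf (159 / 100) (161 / 100) (106 / 100) (135 / 100)) (7448 / 10000) (4 * (135 / 100)) where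
  hψ := measurable_psi2 _ _ _ _
  hQ := measurable_Qf _ _ _ _
  hnuM := by norm_num
  up := fun p hp => upper_gauss2 hp
  low := fun p hp => lower_gauss2 hp
  strip := fun u B hu hB hW => by
    have hT := g2_tail
    have e1 : (159 / 100 : ℝ) = 159 / 100 := rfl
    refine strip_of_tail (x := 100 / 159) (T := -1 / 2000) (by norm_num)
      (measurable_psi2 _ _ _ _) (fun r _ => psi2_nonneg (by norm_num) r) (measurable_Qf _ _ _ _)
      (fun r _ => Qf_nonneg (by norm_num) r) (by norm_num) ?_ ?_ ?_ hu hB hW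
    · rw [psi2_line1 (by norm_num) (by norm_num) (by norm_num) (by norm_num)]
      norm_num
    · intro r hr hr2
      unfold Qf
      rw [if_pos (by linarith)]
      apply max_eq_left
      have : (159 / 100 : ℝ) ≤ 1 / r := by
        rw [le_div_iff₀ hr]; linarith
      nlinarith
    · convert hT using 1 <;> norm_num

theorem weights_eisenstein2 (ν : ℂ) :
    AWeights (intRing omega) omega ν (psi2 (143 / 100) (1796 / 1000) (14 / 10) (86 / 100))
      (Qf (143 / 100) (1388 / 1000) (104 / 100) (86 / 100)) (5784 / 10000)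
      (6 * (86 / 100)) where
  hψ := measurable_psi2 _ _ _ _
  hQ := measurable_Qf _ _ _ _
  hnuM := by norm_num
  up := fun p hp => upper_eisenstein2 hp
  low := fun p hp => lower_eisenstein2 hp
  strip := fun u B hu hB hW => by
    have hT := e2_tail
    refine strip_of_tail (x := 100 / 143) (T := -1 / 2000) (by norm_num)
      (measurable_psi2 _ _ _ _) (fun r _ => psi2_nonneg (by norm_num) r) (measurable_Qf _ _ _ _)
      (fun r _ => Qf_nonneg (by norm_num) r) (by norm_num) ?_ ?_ ?_ hu hB hW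
    · rw [psi2_line1 (by norm_num) (by norm_num) (by norm_num) (by norm_num)]
      norm_num
    · intro r hr hr2
      unfold Qf
      rw [if_pos (by linarith)]
      apply max_eq_left
      have : (143 / 100 : ℝ) ≤ 1 / r := by
        rw [le_div_iff₀ hr]; linarith
      nlinarith
    · convert hT using 1 <;> norm_num

theorem main_gauss2 {ν : ℂ} (hν : ν ∈ intRing I) (hν0 : ν ≠ 0) (hνN : ‖ν‖ ^ 2 ≤ 53)
    (Δ : Subgroup SL2C) (hfi : Δ.relIndex (Gam (intRing I)) ≠ 0)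
    (hlev : ∀ γ ∈ Gam (intRing I), ∀ x ∈ intRing I, γ * trans (ν * x) * γ⁻¹ ∈ Δ)
    (f : Pt → ℂ) (hf : ContDiffOn ℝ 2 f UH) (hinv : ∀ γ ∈ Δ, ∀ p ∈ UH, f (act γ p) = f p)
    (hbdd : ∃ B : ℝ, ∀ p ∈ UH, ‖f p‖ ≤ B)
    (lam : ℂ) (heig : ∀ p ∈ UH, lap f p = -lam * f p)
    (hcusp : ∀ γ ∈ Gam (intRing I), ∀ r : ℝ, 0 < r →
      ∫ s in (0 : ℝ)..1, ∫ t in (0 : ℝ)..1, f (act γ (ν * (s + t * I), r)) = 0)
    (hne : ∃ p ∈ UH, f p ≠ 0) : ∃ l : ℝ, 1 ≤ l ∧ lam = l := by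
  have hpos : 0 < ‖ν‖ ^ 2 := by positivity
  have hμ : (7448 / 10000 : ℝ) ≤ 4 * Real.pi ^ 2 / ‖ν‖ ^ 2 := by
    rw [le_div_iff₀ hpos]
    have := Real.pi_gt_d6
    nlinarith
  exact main niceRing_gauss isLat_gauss (by norm_num) covers_gauss hν hν0 (weights_gauss2 ν)
    (fun u hu hp r hr hm => (mul_le_mul_left (ENNReal.ofReal_le_ofReal hμ) _).trans
      (wirtinger_gauss hν0 hu hp hr hm))
    Δ hfi hlev f hf hinv hbdd lam heig hcusp hne

theorem main_eisenstein2 {ν : ℂ} (hν : ν ∈ intRing omega) (hν0 : ν ≠ 0) (hνN : ‖ν‖ ^ 2 ≤ 91)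
    (Δ : Subgroup SL2C) (hfi : Δ.relIndex (Gam (intRing omega)) ≠ 0)
    (hlev : ∀ γ ∈ Gam (intRing omega), ∀ x ∈ intRing omega, γ * trans (ν * x) * γ⁻¹ ∈ Δ)
    (f : Pt → ℂ) (hf : ContDiffOn ℝ 2 f UH) (hinv : ∀ γ ∈ Δ, ∀ p ∈ UH, f (act γ p) = f p)
    (hbdd : ∃ B : ℝ, ∀ p ∈ UH, ‖f p‖ ≤ B)
    (lam : ℂ) (heig : ∀ p ∈ UH, lap f p = -lam * f p)
    (hcusp : ∀ γ ∈ Gam (intRing omega), ∀ r : ℝ, 0 < r →
      ∫ s in (0 : ℝ)..1, ∫ t in (0 : ℝ)..1, f (act γ (ν * (s + t * omega), r)) = 0)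
    (hne : ∃ p ∈ UH, f p ≠ 0) : ∃ l : ℝ, 1 ≤ l ∧ lam = l := by
  have hpos : 0 < ‖ν‖ ^ 2 := by positivity
  have hμ : (5784 / 10000 : ℝ) ≤ 4 / 3 * (4 * Real.pi ^ 2) / ‖ν‖ ^ 2 := by
    rw [le_div_iff₀ hpos]
    have := Real.pi_gt_d6
    nlinarith
  exact main niceRing_eisenstein isLat_eisenstein (by norm_num) covers_eisenstein hν hν0
    (weights_eisenstein2 ν)
    (fun u hu hp r hr hm => (mul_le_mul_left (ENNReal.ofReal_le_ofReal hμ) _).trans
      (wirtinger_eisenstein hν0 hu hp hr hm))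
    Δ hfi hlev f hf hinv hbdd lam heig hcusp hne

end Pool.Agent.Helper10.Ram
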