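import Pool.Agent.Helper10.Ram.Defs

set_option autoImplicit false

/-!
# Auxiliary definitions shared by the modules (not part of the final statement)
-/

namespace Pool.Agent.Helper10.Ram

open Complex MeasureTheory

/-- hyperbolic volume `r⁻³ dx dy dr` on the upper half-space -/
noncomputable def hyp : Measure Pt :=
  (volume.restrict UH).withDensity fun p => ENNReal.ofReal ((p.2 ^ 3)⁻¹)

/-- squared hyperbolic norm of the gradient -/
noncomputable def gsq (f : Pt → ℂ) (p : Pt) : ℝ :=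
  p.2 ^ 2 * (‖pd e1 f p‖ ^ 2 + ‖pd e2 f p‖ ^ 2 + ‖pd e3 f p‖ ^ 2)

/-- bilinear hyperbolic gradient product -/
noncomputable def gdot (f h : Pt → ℂ) (p : Pt) : ℂ :=
  (p.2 : ℂ) ^ 2 * (pd e1 f p * pd e1 h p + pd e2 f p * pd e2 h p + pd e3 f p * pd e3 h p)

/-- weak form of the eigenvalue equation `lap u = - lam u` on the upper half-space -/
def WeakEig (lam : ℂ) (u : Pt → ℂ) : Prop :=
  ∀ φ : Pt → ℂ, ContDiff ℝ 1 φ → HasCompactSupport φ → tsupport φ ⊆ UH →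
    ∫ p, gdot u φ p ∂hyp = lam * ∫ p, u p * φ p ∂hyp

/-- discrete subrings (all we need about rings of integers of imaginary quadratic fields) -/
structure NiceRing (R : Subring ℂ) : Prop where
  disc : ∀ x ∈ R, x ≠ 0 → 1 ≤ ‖x‖
  fin : ∀ C : ℝ, {x : ℂ | x ∈ R ∧ ‖x‖ ≤ C}.Finite

/-- every orbit meets the Siegel-type set `‖z‖ ≤ C, a ≤ r` -/
def Covers (R : Subring ℂ) (C a : ℝ) : Prop :=
  ∀ p ∈ UH, ∃ γ ∈ Gam R, ‖(act γ p).1‖ ≤ C ∧ a ≤ (act γ p).2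

/-- `κ` is a `C¹` partition of unity for `Gam R` supported in a Siegel-type set -/
structure Kap (R : Subring ℂ) (κ : Pt → ℝ) (C a : ℝ) : Prop where
  pos : 0 < a
  smooth : ContDiff ℝ 1 κ
  nonneg : ∀ p, 0 ≤ κ p
  supp : ∀ p, κ p ≠ 0 → ‖p.1‖ ≤ C ∧ a ≤ p.2
  sum : ∀ p ∈ UH, HasSum (fun γ : Gam R => κ (act γ p)) 1

/-- a finite family of `C²` functions permuted by `Gam R` -/
structure Sys (R : Subring ℂ) (ι : Type) (u : ι → Pt → ℂ) : Prop where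
  smooth : ∀ i, ContDiffOn ℝ 2 (u i) UH
  perm : ∀ γ ∈ Gam R, ∃ σ : Equiv.Perm ι, ∀ i, ∀ p ∈ UH, u i (act γ p) = u (σ i) p

/-- bottom rows of elements of `Gam R` -/
def Prim (R : Subring ℂ) : Set (ℂ × ℂ) := {v | ∃ γ ∈ Gam R, v = (γ 1 0, γ 1 1)}

/-- inverse height: `uval (c,d) (z,r) = (|c z + d|² + |c|² r²) / r` -/
noncomputable def uval (v : ℂ × ℂ) (p : Pt) : ℝ :=
  (‖v.1 * p.1 + v.2‖ ^ 2 + ‖v.1‖ ^ 2 * p.2 ^ 2) / p.2

/-- `R` is the lattice `ℤ + ℤ τ` -/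
structure IsLat (R : Subring ℂ) (τ : ℂ) : Prop where
  im_pos : 0 < τ.im
  mem_iff : ∀ x : ℂ, x ∈ R ↔ ∃ a b : ℤ, x = a + b * τ

/-- the weight: `ψ(r) = min (c - 1/r) m` truncated at `0` -/
noncomputable def psi (c m : ℝ) (r : ℝ) : ℝ := max 0 (min (c - 1 / r) m)

/-- the lower bound function for the energy density -/
noncomputable def Qf (c s R1 M : ℝ) (r : ℝ) : ℝ :=
  if r < R1 then max 0 (s * (c - 1 / r)) else M

/-- the energy density obtained from the radial test function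
`τ(r) = -b (r - a)` for `r ≤ r2`, `τ(r) = -b (r2 - a) - b2 (r - r2)` for `r ≥ r2`:
`q = ψ (μ r² - τ² + 2 τ - r τ') - r ψ' τ` -/
noncomputable def qf (c m a b r2 b2 μ : ℝ) (r : ℝ) : ℝ :=
  if r < 1 / c then 0
  else if r < 1 / (c - m) then
    (c - 1 / r) * (μ * r ^ 2 - b ^ 2 * (r - a) ^ 2 - b * r + 2 * a * b) + b * (1 - a / r)
  else if r < r2 then m * (μ * r ^ 2 - b ^ 2 * (r - a) ^ 2 - b * r + 2 * a * b)
  else m * (μ * r ^ 2 - (b * (r2 - a) + b2 * (r - r2)) ^ 2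
      - 2 * (b * (r2 - a) + b2 * (r - r2)) + b2 * r)

/-- integral over the unit parallelogram `{z = ν (s + t τ)}` at height `r`, of a nonnegative
function -/
noncomputable def cellInt (τ ν : ℂ) (F : Pt → ENNReal) (r : ℝ) : ENNReal :=
  ∫⁻ s in Set.Icc (0 : ℝ) 1, ∫⁻ t in Set.Icc (0 : ℝ) 1, F (ν * (s + t * τ), r)

end Pool.Agent.Helper10.Ram
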