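import Pool.Agent.Helper10.Ram.Lib

set_option autoImplicit false

/-!
# The one-variable inequalities between the two weight functions
-/

namespace Pool.Agent.Helper10.Ram

open Complex MeasureTheory Topology

theorem qf_gauss {μ : ℝ} (hμ : 1.0669 ≤ μ) {r : ℝ} (hr : 0 < r) :
    Qf (8 / 5) (178 / 100) (115 / 100) (167 / 125) r
      ≤ qf (8 / 5) (6 / 5) (61 / 100) (104 / 100) (5 / 2) 1 μ r := by
  have e1 : (1 : ℝ) / (8 / 5) = 5 / 8 := by norm_num
  have e2 : (1 : ℝ) / (8 / 5 - 6 / 5) = 5 / 2 := by norm_num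
  unfold Qf qf
  rw [e1, e2]
  have hmr : (1.0669 : ℝ) * r ^ 2 ≤ μ * r ^ 2 := mul_le_mul_of_nonneg_right hμ (by positivity)
  rcases lt_or_ge r (5 / 8) with h1 | h1
  · rw [if_pos h1, if_pos (by linarith)]
    apply max_le le_rfl
    have : (8 / 5 : ℝ) < 1 / r := by
      rw [lt_div_iff₀ hr]; linarith
    nlinarith
  rw [if_neg (not_lt.mpr h1)]
  have hc : 0 ≤ (8 / 5 : ℝ) - 1 / r := by
    have : 1 / r ≤ 8 / 5 := by
      rw [div_le_iff₀ hr]; linarith
    linarith
  rcases lt_or_ge r (5 / 2) with h2 | h2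
  · rw [if_pos h2]
    have hX : (8 / 5 - 1 / r) * (1.0669 * r ^ 2 - (104 / 100) ^ 2 * (r - 61 / 100) ^ 2
          - 104 / 100 * r + 2 * (61 / 100) * (104 / 100)) + 104 / 100 * (1 - 61 / 100 / r) ≤
        (8 / 5 - 1 / r) * (μ * r ^ 2 - (104 / 100) ^ 2 * (r - 61 / 100) ^ 2
          - 104 / 100 * r + 2 * (61 / 100) * (104 / 100)) + 104 / 100 * (1 - 61 / 100 / r) := by
      have := mul_le_mul_of_nonneg_left hmr hc
      linarith
    refine le_trans ?_ hX
    rcases lt_or_ge r (115 / 100) with h3 | h3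
    · rw [if_pos h3]
      have key : 0 ≤ (8 / 5 * r - 1) * (1.0669 * r ^ 2 - (104 / 100) ^ 2 * (r - 61 / 100) ^ 2
          - 104 / 100 * r + 2 * (61 / 100) * (104 / 100) - 178 / 100)
          + 104 / 100 * (r - 61 / 100) := by
        nlinarith [mul_nonneg (sq_nonneg (r - 0.809)) (sub_nonneg.2 h3.le),
          sq_nonneg (r - 0.809)]
      have h0 : 0 ≤ (178 / 100 : ℝ) * (8 / 5 - 1 / r) := by positivity
      rw [max_eq_right h0, ← sub_nonneg]
      have hd : (8 / 5 - 1 / r) * (1.0669 * r ^ 2 - (104 / 100) ^ 2 * (r - 61 / 100) ^ 2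
          - 104 / 100 * r + 2 * (61 / 100) * (104 / 100)) + 104 / 100 * (1 - 61 / 100 / r)
          - 178 / 100 * (8 / 5 - 1 / r)
          = ((8 / 5 * r - 1) * (1.0669 * r ^ 2 - (104 / 100) ^ 2 * (r - 61 / 100) ^ 2
          - 104 / 100 * r + 2 * (61 / 100) * (104 / 100) - 178 / 100)
          + 104 / 100 * (r - 61 / 100)) / r := by
        field_simp
        ring
      rw [hd]
      exact div_nonneg key hr.le
    · rw [if_neg (not_lt.mpr h3)]
      have key : 0 ≤ (8 / 5 * r - 1) * (1.0669 * r ^ 2 - (104 / 100) ^ 2 * (r - 61 / 100) ^ 2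
          - 104 / 100 * r + 2 * (61 / 100) * (104 / 100)) + 104 / 100 * (r - 61 / 100)
          - 167 / 125 * r := by
        nlinarith [mul_nonneg (sub_nonneg.2 h3) (sub_nonneg.2 h2.le),
          mul_nonneg (mul_nonneg (sub_nonneg.2 h3) (sub_nonneg.2 h2.le)) (sub_nonneg.2 h3),
          mul_nonneg (mul_nonneg (sub_nonneg.2 h3) (sub_nonneg.2 h2.le)) (sub_nonneg.2 h2.le)]
      rw [← sub_nonneg]
      have hd : (8 / 5 - 1 / r) * (1.0669 * r ^ 2 - (104 / 100) ^ 2 * (r - 61 / 100) ^ 2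
          - 104 / 100 * r + 2 * (61 / 100) * (104 / 100)) + 104 / 100 * (1 - 61 / 100 / r)
          - 167 / 125
          = ((8 / 5 * r - 1) * (1.0669 * r ^ 2 - (104 / 100) ^ 2 * (r - 61 / 100) ^ 2
          - 104 / 100 * r + 2 * (61 / 100) * (104 / 100))
          + 104 / 100 * (r - 61 / 100) - 167 / 125 * r) / r := by
        field_simp
      rw [hd]
      exact div_nonneg key hr.le
  · rw [if_neg (not_lt.mpr h2), if_neg (not_lt.mpr h2), if_neg (by linarith)]
    nlinarith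

theorem qf_eisenstein {μ : ℝ} (hμ : 0.721 ≤ μ) {r : ℝ} (hr : 0 < r) :
    Qf (141 / 100) (162 / 100) (1104 / 1000) (41 / 50) r
      ≤ qf (141 / 100) (41 / 50) (69 / 100) (86 / 100) 3 (82 / 100) μ r := by
  have e1 : (1 : ℝ) / (141 / 100) = 100 / 141 := by norm_num
  have e2 : (1 : ℝ) / (141 / 100 - 41 / 50) = 100 / 59 := by norm_num
  unfold Qf qf
  rw [e1, e2]
  have hmr : (0.721 : ℝ) * r ^ 2 ≤ μ * r ^ 2 := mul_le_mul_of_nonneg_right hμ (by positivity)
  rcases lt_or_ge r (100 / 141) with h1 | h1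
  · rw [if_pos h1, if_pos (by linarith)]
    apply max_le le_rfl
    have : (141 / 100 : ℝ) < 1 / r := by
      rw [lt_div_iff₀ hr]; linarith
    nlinarith
  rw [if_neg (not_lt.mpr h1)]
  have hc : 0 ≤ (141 / 100 : ℝ) - 1 / r := by
    have : 1 / r ≤ 141 / 100 := by
      rw [div_le_iff₀ hr]; linarith
    linarith
  rcases lt_or_ge r (100 / 59) with h2 | h2
  · rw [if_pos h2]
    have hX : (141 / 100 - 1 / r) * (0.721 * r ^ 2 - (86 / 100) ^ 2 * (r - 69 / 100) ^ 2
          - 86 / 100 * r + 2 * (69 / 100) * (86 / 100)) + 86 / 100 * (1 - 69 / 100 / r) ≤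
        (141 / 100 - 1 / r) * (μ * r ^ 2 - (86 / 100) ^ 2 * (r - 69 / 100) ^ 2
          - 86 / 100 * r + 2 * (69 / 100) * (86 / 100)) + 86 / 100 * (1 - 69 / 100 / r) := by
      have := mul_le_mul_of_nonneg_left hmr hc
      linarith
    refine le_trans ?_ hX
    rcases lt_or_ge r (1104 / 1000) with h3 | h3
    · rw [if_pos h3]
      have key : 0 ≤ (141 / 100 * r - 1) * (0.721 * r ^ 2 - (86 / 100) ^ 2 * (r - 69 / 100) ^ 2
          - 86 / 100 * r + 2 * (69 / 100) * (86 / 100) - 162 / 100)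
          + 86 / 100 * (r - 69 / 100) := by
        nlinarith [mul_nonneg (sq_nonneg (r - 0.99)) (sub_nonneg.2 h3.le),
          sq_nonneg (r - 0.99)]
      have h0 : 0 ≤ (162 / 100 : ℝ) * (141 / 100 - 1 / r) := by positivity
      rw [max_eq_right h0, ← sub_nonneg]
      have hd : (141 / 100 - 1 / r) * (0.721 * r ^ 2 - (86 / 100) ^ 2 * (r - 69 / 100) ^ 2
          - 86 / 100 * r + 2 * (69 / 100) * (86 / 100)) + 86 / 100 * (1 - 69 / 100 / r)
          - 162 / 100 * (141 / 100 - 1 / r)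
          = ((141 / 100 * r - 1) * (0.721 * r ^ 2 - (86 / 100) ^ 2 * (r - 69 / 100) ^ 2
          - 86 / 100 * r + 2 * (69 / 100) * (86 / 100) - 162 / 100)
          + 86 / 100 * (r - 69 / 100)) / r := by
        field_simp
        ring
      rw [hd]
      exact div_nonneg key hr.le
    · rw [if_neg (not_lt.mpr h3)]
      have key : 0 ≤ (141 / 100 * r - 1) * (0.721 * r ^ 2 - (86 / 100) ^ 2 * (r - 69 / 100) ^ 2
          - 86 / 100 * r + 2 * (69 / 100) * (86 / 100)) + 86 / 100 * (r - 69 / 100)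
          - 41 / 50 * r := by
        nlinarith [mul_nonneg (sub_nonneg.2 h3) (sub_nonneg.2 h2.le),
          mul_nonneg (mul_nonneg (sub_nonneg.2 h3) (sub_nonneg.2 h2.le)) (sub_nonneg.2 h3),
          mul_nonneg (mul_nonneg (sub_nonneg.2 h3) (sub_nonneg.2 h2.le)) (sub_nonneg.2 h2.le)]
      rw [← sub_nonneg]
      have hd : (141 / 100 - 1 / r) * (0.721 * r ^ 2 - (86 / 100) ^ 2 * (r - 69 / 100) ^ 2
          - 86 / 100 * r + 2 * (69 / 100) * (86 / 100)) + 86 / 100 * (1 - 69 / 100 / r)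
          - 41 / 50
          = ((141 / 100 * r - 1) * (0.721 * r ^ 2 - (86 / 100) ^ 2 * (r - 69 / 100) ^ 2
          - 86 / 100 * r + 2 * (69 / 100) * (86 / 100))
          + 86 / 100 * (r - 69 / 100) - 41 / 50 * r) / r := by
        field_simp
      rw [hd]
      exact div_nonneg key hr.le
  · rw [if_neg (not_lt.mpr h2)]
    rw [if_neg (by linarith : ¬ r < 1104 / 1000)]
    rcases lt_or_ge r 3 with h3 | h3
    · rw [if_pos h3]
      nlinarith
    · rw [if_neg (not_lt.mpr h3)]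
      nlinarith

end Pool.Agent.Helper10.Ram
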